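import Mathlib

set_option autoImplicit false
set_option linter.unusedSectionVars false
set_option linter.unusedVariables false
open Set Metric Filter Topology

namespace Pool.Agent.H230R3.TC

/-- the Laplacian of a real function on the plane -/
noncomputable def LL (f : ℂ → ℝ) (z : ℂ) : ℝ := Laplacian.laplacian f z

/-- the Laplacian in the form of the frozen statement -/
noncomputable def LF (f : ℂ → ℝ) (z : ℂ) : ℝ :=
  fderiv ℝ (fun w => fderiv ℝ f w (1 : ℂ)) z (1 : ℂ)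
    + fderiv ℝ (fun w => fderiv ℝ f w Complex.I) z Complex.I

theorem fderiv_const_dir {f : ℂ → ℝ} {z : ℂ} (hf : ContDiffAt ℝ 2 f z) (d : ℂ) :
    fderiv ℝ (fun w => fderiv ℝ f w d) z d = fderiv ℝ (fderiv ℝ f) z d d := by
  have h1 : DifferentiableAt ℝ (fderiv ℝ f) z :=
    (hf.fderiv_right (m := 1) (by norm_num)).differentiableAt (by norm_num)
  have h2 := (h1.hasFDerivAt.clm_apply (hasFDerivAt_const d z)).fderiv
  rw [h2]
  simp

theorem LL_eq (f : ℂ → ℝ) (z : ℂ) : LL f z = fderiv ℝ (fderiv ℝ f) z 1 1 +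
    fderiv ℝ (fderiv ℝ f) z Complex.I Complex.I := by
  unfold LL
  rw [InnerProductSpace.laplacian_eq_iteratedFDeriv_complexPlane]
  simp only [iteratedFDeriv_two_apply]
  rfl

theorem LF_eq {f : ℂ → ℝ} {z : ℂ} (hf : ContDiffAt ℝ 2 f z) : LF f z = LL f z := by
  unfold LF
  rw [fderiv_const_dir hf, fderiv_const_dir hf, LL_eq]

theorem LL_add {f g : ℂ → ℝ} {z : ℂ} (hf : ContDiffAt ℝ 2 f z) (hg : ContDiffAt ℝ 2 g z) :
    LL (fun w => f w + g w) z = LL f z + LL g z :=
  ContDiffAt.laplacian_add hf hg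

theorem LL_sub {f g : ℂ → ℝ} {z : ℂ} (hf : ContDiffAt ℝ 2 f z) (hg : ContDiffAt ℝ 2 g z) :
    LL (fun w => f w - g w) z = LL f z - LL g z :=
  ContDiffAt.laplacian_sub hf hg

theorem LL_smul {f : ℂ → ℝ} {z : ℂ} (c : ℝ) (hf : ContDiffAt ℝ 2 f z) :
    LL (fun w => c * f w) z = c * LL f z :=
  InnerProductSpace.laplacian_smul (𝕜 := ℝ) c hf

theorem LL_congr {f g : ℂ → ℝ} {z : ℂ} (h : f =ᶠ[𝓝 z] g) : LL f z = LL g z :=
  (InnerProductSpace.laplacian_congr_nhds h).self_of_nhds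

theorem LL_const (c : ℝ) (z : ℂ) : LL (fun _ => c) z = 0 := by
  unfold LL
  rw [InnerProductSpace.laplacian_const]; rfl

theorem LL_re {F : ℂ → ℂ} {z : ℂ} (h : AnalyticAt ℂ F z) :
    ContDiffAt ℝ 2 (fun w => (F w).re) z ∧ LL (fun w => (F w).re) z = 0 := by
  have h1 := AnalyticAt.harmonicAt_re h
  exact ⟨h1.1, h1.2.self_of_nhds⟩

theorem contDiff_re2 : ContDiff ℝ 2 (fun w : ℂ => w.re ^ 2) :=
  (Complex.reCLM.contDiff).pow 2

theorem contDiff_im2 : ContDiff ℝ 2 (fun w : ℂ => w.im ^ 2) :=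
  (Complex.imCLM.contDiff).pow 2

theorem LL_re2 (z : ℂ) : LL (fun w : ℂ => w.re ^ 2) z = 2 := by
  rw [← LF_eq contDiff_re2.contDiffAt]
  have h : ∀ w : ℂ, HasFDerivAt (fun w : ℂ => w.re ^ 2) ((2 * w.re) • Complex.reCLM) w := by
    intro w
    have h1 : HasFDerivAt (fun w : ℂ => w.re) Complex.reCLM w := Complex.reCLM.hasFDerivAt
    have h2 := h1.pow 2
    convert! h2 using 1
    ext <;> simp
  have h1 : (fun w => fderiv ℝ (fun w : ℂ => w.re ^ 2) w 1) = fun w => 2 * w.re := by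
    funext w; rw [(h w).fderiv]; simp
  have h2 : (fun w => fderiv ℝ (fun w : ℂ => w.re ^ 2) w Complex.I) = fun w => 0 := by
    funext w; rw [(h w).fderiv]; simp
  unfold LF
  rw [h1, h2]
  have h3 : HasFDerivAt (fun w : ℂ => 2 * w.re) ((2 : ℝ) • Complex.reCLM) z :=
    (Complex.reCLM.hasFDerivAt (x := z)).const_mul 2
  rw [h3.fderiv]
  simp

theorem LL_im2 (z : ℂ) : LL (fun w : ℂ => w.im ^ 2) z = 2 := by
  rw [← LF_eq contDiff_im2.contDiffAt]
  have h : ∀ w : ℂ, HasFDerivAt (fun w : ℂ => w.im ^ 2) ((2 * w.im) • Complex.imCLM) w := by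
    intro w
    have h1 : HasFDerivAt (fun w : ℂ => w.im) Complex.imCLM w := Complex.imCLM.hasFDerivAt
    have h2 := h1.pow 2
    convert! h2 using 1
    ext <;> simp
  have h1 : (fun w => fderiv ℝ (fun w : ℂ => w.im ^ 2) w 1) = fun w => 0 := by
    funext w; rw [(h w).fderiv]; simp
  have h2 : (fun w => fderiv ℝ (fun w : ℂ => w.im ^ 2) w Complex.I) = fun w => 2 * w.im := by
    funext w; rw [(h w).fderiv]; simp
  unfold LF
  rw [h1, h2]
  have h3 : HasFDerivAt (fun w : ℂ => 2 * w.im) ((2 : ℝ) • Complex.imCLM) z :=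
    (Complex.imCLM.hasFDerivAt (x := z)).const_mul 2
  rw [h3.fderiv]
  simp

/-- second derivative necessary condition at a local maximum -/
theorem second_deriv_nonpos {g : ℝ → ℝ} {x : ℝ} (hmax : IsLocalMax g x) (hc : ContinuousAt g x) :
    deriv (deriv g) x ≤ 0 := by
  by_contra hcon
  push Not at hcon
  have h1 : deriv g x = 0 := hmax.deriv_eq_zero
  have h2 : IsLocalMin g x := isLocalMin_of_deriv_deriv_pos hcon h1 hc
  have h3 : g =ᶠ[𝓝 x] (fun _ => g x) := by
    filter_upwards [hmax, h2] with y hy1 hy2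
    exact le_antisymm hy1 hy2
  have h4 : deriv g =ᶠ[𝓝 x] deriv (fun _ => g x) := h3.deriv
  have h5 : deriv (deriv g) x = deriv (deriv (fun _ : ℝ => g x)) x := h4.deriv_eq
  simp at h5
  linarith

theorem hess_nonpos {G : ℂ → ℝ} {p : ℂ} (hG : ContDiffAt ℝ 2 G p) (hmax : IsLocalMax G p)
    (d : ℂ) : fderiv ℝ (fderiv ℝ G) p d d ≤ 0 := by
  have hl : ∀ s : ℝ, HasDerivAt (fun s : ℝ => p + s • d) d s := fun s => by
    simpa using ((hasDerivAt_id s).smul_const d).const_add p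
  have hline : Tendsto (fun s : ℝ => p + s • d) (𝓝 0) (𝓝 p) := by
    have := (hl 0).continuousAt
    simpa [ContinuousAt] using this
  have hev : ∀ᶠ q in 𝓝 p, DifferentiableAt ℝ G q := by
    have := hG.eventually (by simp)
    filter_upwards [this] with q hq
    exact hq.differentiableAt (by norm_num)
  have hd1 : deriv (fun s : ℝ => G (p + s • d)) =ᶠ[𝓝 0] fun s => fderiv ℝ G (p + s • d) d := by
    filter_upwards [hline.eventually hev] with s hs
    exact (hs.hasFDerivAt.comp_hasDerivAt s (hl s)).deriv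
  have hm : IsLocalMax (fun s : ℝ => G (p + s • d)) 0 := by
    filter_upwards [hline.eventually hmax] with s hs
    simpa using hs
  have hc : ContinuousAt (fun s : ℝ => G (p + s • d)) 0 := by
    have h1 : ContinuousAt G (p + (0 : ℝ) • d) := by simpa using hG.continuousAt
    exact ContinuousAt.comp (f := fun s : ℝ => p + s • d) h1 (hl 0).continuousAt
  have h0 := second_deriv_nonpos hm hc
  rw [hd1.deriv_eq] at h0
  have h1 : DifferentiableAt ℝ (fderiv ℝ G) (p + (0 : ℝ) • d) := by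
    have : DifferentiableAt ℝ (fderiv ℝ G) p :=
      (hG.fderiv_right (m := 1) (by norm_num)).differentiableAt (by norm_num)
    simpa using this
  have h2 := (h1.hasFDerivAt.clm_apply (hasFDerivAt_const d (p + (0 : ℝ) • d)))
  have h3 := (h2.comp_hasDerivAt (0 : ℝ) (hl 0)).deriv
  have h4 : (fun s : ℝ => fderiv ℝ G (p + s • d) d) = (fun q => fderiv ℝ G q d) ∘
      (fun s : ℝ => p + s • d) := rfl
  rw [h4, h3] at h0
  simpa using h0

theorem LL_nonpos_of_max {G : ℂ → ℝ} {p : ℂ} (hG : ContDiffAt ℝ 2 G p) (hmax : IsLocalMax G p) :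
    LL G p ≤ 0 := by
  rw [LL_eq]
  have h1 := hess_nonpos hG hmax 1
  have h2 := hess_nonpos hG hmax Complex.I
  linarith

/-- maximum principle on a bounded open set -/
theorem maxP {U : Set ℂ} (hU : IsOpen U) (hb : Bornology.IsBounded U) {f : ℂ → ℝ}
    (hc : ContinuousOn f (closure U)) (hd : ∀ z ∈ U, ContDiffAt ℝ 2 f z ∧ 0 ≤ LL f z)
    (hf : ∀ z ∈ frontier U, f z ≤ 0) : ∀ z ∈ U, f z ≤ 0 := by
  intro z0 hz0
  by_contra hcon
  push Not at hcon
  obtain ⟨R, hR⟩ := hb.closure.subset_closedBall (0 : ℂ)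
  set ε : ℝ := f z0 / (2 * (R ^ 2 + 1)) with hε
  have hε0 : 0 < ε := by positivity
  have hεR : ε * R ^ 2 < f z0 := by
    rw [hε, div_mul_eq_mul_div, div_lt_iff₀ (by positivity)]
    nlinarith [sq_nonneg R]
  set g : ℂ → ℝ := fun w => f w + ε * w.re ^ 2 with hg
  have hgc : ContinuousOn g (closure U) := hc.add (by fun_prop)
  have hcomp : IsCompact (closure U) := hb.isCompact_closure
  obtain ⟨z1, hz1, hmax⟩ := hcomp.exists_isMaxOn ⟨z0, subset_closure hz0⟩ hgc
  have h1 : f z0 ≤ g z1 := by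
    have h2 : g z0 ≤ g z1 := hmax (subset_closure hz0)
    have h3 : f z0 ≤ g z0 := by
      simp only [hg]; have := mul_nonneg hε0.le (sq_nonneg z0.re); linarith
    linarith
  have hz1U : z1 ∈ U := by
    by_contra hn
    have h2 : z1 ∈ frontier U := ⟨hz1, by rwa [hU.interior_eq]⟩
    have h3 := hf z1 h2
    have h4 : z1.re ^ 2 ≤ R ^ 2 := by
      have h5 : ‖z1‖ ≤ R := by simpa using hR hz1
      have h6 := Complex.abs_re_le_norm z1
      rw [← sq_abs]
      exact pow_le_pow_left₀ (abs_nonneg _) (h6.trans h5) 2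
    have h7 : g z1 ≤ ε * R ^ 2 := by
      simp only [hg]
      have := mul_le_mul_of_nonneg_left h4 hε0.le
      linarith
    linarith
  have hlm : IsLocalMax g z1 := by
    filter_upwards [hU.mem_nhds hz1U] with w hw
    exact hmax (subset_closure hw)
  obtain ⟨hd1, hd2⟩ := hd z1 hz1U
  have hq : ContDiffAt ℝ 2 (fun w : ℂ => ε * w.re ^ 2) z1 :=
    (contDiff_const.mul contDiff_re2).contDiffAt
  have hgd : ContDiffAt ℝ 2 g z1 := hd1.add hq
  have h5 := LL_nonpos_of_max hgd hlm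
  have h6 : LL g z1 = LL f z1 + ε * 2 := by
    rw [hg, LL_add hd1 hq, LL_smul ε contDiff_re2.contDiffAt, LL_re2]
  linarith

end Pool.Agent.H230R3.TC
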