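import Mathlib

set_option autoImplicit false

namespace Pool.Agent.H230R3.TC

theorem poly_0 {t : ℝ} (h1 : 0 ≤ t) (h2 : t ≤ (1/8)) :
    0 ≤ 3 / 20 - 2 * t + 80 * t ^ 2 - 134 * t ^ 3 - 80 * t ^ 4 + 200 * t ^ 5 - 64 * t ^ 7 := by
  have e : 3 / 20 - 2 * t + 80 * t ^ 2 - 134 * t ^ 3 - 80 * t ^ 4 + 200 * t ^ 5 - 64 * t ^ 7 =
      (1572864/5) * ((t - 0) ^ 0 * ((1/8) - t) ^ 7) + (8388608/5) * ((t - 0) ^ 1 * ((1/8) - t) ^ 6) + (30408704/5) * ((t - 0) ^ 2 * ((1/8) - t) ^ 5) + 15704064 * ((t - 0) ^ 3 * ((1/8) - t) ^ 4) + 24502272 * ((t - 0) ^ 4 * ((1/8) - t) ^ 3) + (107764224/5) * ((t - 0) ^ 5 * ((1/8) - t) ^ 2) + (49353728/5) * ((t - 0) ^ 6 * ((1/8) - t) ^ 1) + (9173184/5) * ((t - 0) ^ 7 * ((1/8) - t) ^ 0) := by ring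
  rw [e]
  have h3 : 0 ≤ t - 0 := by linarith
  have h4 : 0 ≤ (1/8) - t := by linarith
  positivity

theorem poly_1 {t : ℝ} (h1 : (1/8) ≤ t) (h2 : t ≤ (1/2)) :
    0 ≤ 3 / 20 - 2 * t + 80 * t ^ 2 - 134 * t ^ 3 - 80 * t ^ 4 + 200 * t ^ 5 - 64 * t ^ 7 := by
  have e : 3 / 20 - 2 * t + 80 * t ^ 2 - 134 * t ^ 3 - 80 * t ^ 4 + 200 * t ^ 5 - 64 * t ^ 7 =
      (3057728/3645) * ((t - (1/8)) ^ 0 * ((1/2) - t) ^ 7) + (4029184/405) * ((t - (1/8)) ^ 1 * ((1/2) - t) ^ 6) + (55399936/1215) * ((t - (1/8)) ^ 2 * ((1/2) - t) ^ 5) + (73533440/729) * ((t - (1/8)) ^ 3 * ((1/2) - t) ^ 4) + (28647424/243) * ((t - (1/8)) ^ 4 * ((1/2) - t) ^ 3) + (90013696/1215) * ((t - (1/8)) ^ 5 * ((1/2) - t) ^ 2) + (86245376/3645) * ((t - (1/8)) ^ 6 * ((1/2) - t) ^ 1) + (3670016/1215) * ((t - (1/8)) ^ 7 * ((1/2) -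 t) ^ 0) := by ring
  rw [e]
  have h3 : 0 ≤ t - (1/8) := by linarith
  have h4 : 0 ≤ (1/2) - t := by linarith
  positivity

theorem poly_2 {t : ℝ} (h1 : (1/2) ≤ t) (h2 : t ≤ (3/4)) :
    0 ≤ 3 / 20 - 2 * t + 80 * t ^ 2 - 134 * t ^ 3 - 80 * t ^ 4 + 200 * t ^ 5 - 64 * t ^ 7 := by
  have e : 3 / 20 - 2 * t + 80 * t ^ 2 - 134 * t ^ 3 - 80 * t ^ 4 + 200 * t ^ 5 - 64 * t ^ 7 =
      (258048/5) * ((t - (1/2)) ^ 0 * ((3/4) - t) ^ 7) + (1662976/5) * ((t - (1/2)) ^ 1 * ((3/4) - t) ^ 6) + (4389888/5) * ((t - (1/2)) ^ 2 * ((3/4) - t) ^ 5) + 1224192 * ((t - (1/2)) ^ 3 * ((3/4) - t) ^ 4) + 971520 * ((t - (1/2)) ^ 4 * ((3/4) - t) ^ 3) + (2209408/5) * ((t - (1/2)) ^ 5 * ((3/4) - t) ^ 2) + (547456/5) * ((t - (1/2)) ^ 6 * ((3/4) - t) ^ 1) + (59328/5) * ((t - (1/2)) ^ 7 * ((3/4) - t) ^ 0) := by ring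
  rw [e]
  have h3 : 0 ≤ t - (1/2) := by linarith
  have h4 : 0 ≤ (3/4) - t := by linarith
  positivity

theorem poly_3 {t : ℝ} (h1 : (3/4) ≤ t) (h2 : t ≤ 1) :
    0 ≤ 3 / 20 - 2 * t + 80 * t ^ 2 - 134 * t ^ 3 - 80 * t ^ 4 + 200 * t ^ 5 - 64 * t ^ 7 := by
  have e : 3 / 20 - 2 * t + 80 * t ^ 2 - 134 * t ^ 3 - 80 * t ^ 4 + 200 * t ^ 5 - 64 * t ^ 7 =
      (59328/5) * ((t - (3/4)) ^ 0 * (1 - t) ^ 7) + (283136/5) * ((t - (3/4)) ^ 1 * (1 - t) ^ 6) + (623488/5) * ((t - (3/4)) ^ 2 * (1 - t) ^ 5) + 200192 * ((t - (3/4)) ^ 3 * (1 - t) ^ 4) + 253440 * ((t - (3/4)) ^ 4 * (1 - t) ^ 3) + (985088/5) * ((t - (3/4)) ^ 5 * (1 - t) ^ 2) + (331776/5) * ((t - (3/4)) ^ 6 * (1 - t) ^ 1) + (12288/5) * ((t - (3/4)) ^ 7 * (1 - t) ^ 0) := by ring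
  rw [e]
  have h3 : 0 ≤ t - (3/4) := by linarith
  have h4 : 0 ≤ 1 - t := by linarith
  positivity

theorem poly_nonneg {t : ℝ} (h1 : 0 ≤ t) (h2 : t ≤ 1) :
    0 ≤ 3 / 20 - 2 * t + 80 * t ^ 2 - 134 * t ^ 3 - 80 * t ^ 4 + 200 * t ^ 5 - 64 * t ^ 7 := by
  rcases le_total t (1 / 8) with h | h
  · exact poly_0 h1 h
  · rcases le_total t (1 / 2) with h' | h'
    · exact poly_1 h h'
    · rcases le_total t (3 / 4) with h'' | h''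
      · exact poly_2 h' h''
      · exact poly_3 h'' h2

/-- the real part of `F(ξ + iη)`, `F(ζ) = 5/2 ζ - 8/5 ζ³ - 11/10 ζ⁵ + 1/5 ζ⁷` -/
theorem circle_bound {x y : ℝ} (hx : 0 ≤ x) (h : x ^ 2 + y ^ 2 = 1) :
    x * (5 / 2 - 8 / 5 * (x ^ 2 - 3 * y ^ 2) - 11 / 10 * (x ^ 4 - 10 * x ^ 2 * y ^ 2 + 5 * y ^ 4) +
      1 / 5 * (x ^ 6 - 21 * x ^ 4 * y ^ 2 + 35 * x ^ 2 * y ^ 4 - 7 * y ^ 6)) -
      (4 * x * y) ^ 2 - 3 / 100 ≤ 0 := by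
  have hx1 : x ≤ 1 := by nlinarith [sq_nonneg y]
  have hy : y ^ 2 = 1 - x ^ 2 := by linarith
  have h4 : y ^ 4 = (1 - x ^ 2) ^ 2 := by rw [← hy]; ring
  have h6 : y ^ 6 = (1 - x ^ 2) ^ 3 := by rw [← hy]; ring
  have e : (4 * x * y) ^ 2 = 16 * x ^ 2 * y ^ 2 := by ring
  rw [e, h6, h4, hy]
  have := poly_nonneg hx hx1
  nlinarith

theorem slit_bound {x y : ℝ} (hx : 0 ≤ x) (hx2 : x ≤ 1 / 1000) (h : x ^ 2 + y ^ 2 ≤ 1) :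
    x * (5 / 2 - 8 / 5 * (x ^ 2 - 3 * y ^ 2) - 11 / 10 * (x ^ 4 - 10 * x ^ 2 * y ^ 2 + 5 * y ^ 4) +
      1 / 5 * (x ^ 6 - 21 * x ^ 4 * y ^ 2 + 35 * x ^ 2 * y ^ 4 - 7 * y ^ 6)) ≤ 3 / 100 := by
  have hy0 : 0 ≤ y ^ 2 := sq_nonneg y
  have hy1 : y ^ 2 ≤ 1 := by nlinarith [sq_nonneg x]
  have hxx : x ^ 2 ≤ 1 := by nlinarith
  have hx0 : 0 ≤ x ^ 2 := sq_nonneg x
  have a1 : 0 ≤ x ^ 4 := by positivity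
  have a2 : x ^ 2 * y ^ 2 ≤ 1 := by nlinarith
  have a3 : 0 ≤ y ^ 4 := by positivity
  have a4 : x ^ 6 ≤ 1 := by
    have : x ^ 6 = (x ^ 2) ^ 3 := by ring
    rw [this]; exact pow_le_one₀ hx0 hxx
  have a5 : 0 ≤ x ^ 4 * y ^ 2 := by positivity
  have a6 : x ^ 2 * y ^ 4 ≤ 1 := by
    have : x ^ 2 * y ^ 4 = (x ^ 2 * y ^ 2) * y ^ 2 := by ring
    rw [this]
    have := mul_le_mul a2 hy1 hy0 zero_le_one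
    linarith
  have a7 : 0 ≤ y ^ 6 := by positivity
  have hb : 5 / 2 - 8 / 5 * (x ^ 2 - 3 * y ^ 2) - 11 / 10 * (x ^ 4 - 10 * x ^ 2 * y ^ 2 + 5 * y ^ 4) +
      1 / 5 * (x ^ 6 - 21 * x ^ 4 * y ^ 2 + 35 * x ^ 2 * y ^ 4 - 7 * y ^ 6) ≤ 30 := by
    linarith
  have := mul_le_mul_of_nonneg_left hb hx
  linarith

end Pool.Agent.H230R3.TC
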