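import Pool.Agent.H230R3.TC.Geom
import Pool.Agent.H230R3.TC.Lap
import Pool.Agent.H230R3.TC.Poly

set_option autoImplicit false
set_option linter.unusedSectionVars false
set_option linter.unusedVariables false
open Set Metric Filter Topology

namespace Pool.Agent.H230R3.TC

/-- a solution of the torsion problem on `Om` -/
structure Sol (v : ℂ → ℝ) : Prop where
  cd : ∀ z ∈ Om, ContDiffAt ℝ 2 v z
  eq : ∀ z ∈ Om, LL v z = -2
  cont : ContinuousOn v (closure Om)
  bd : ∀ z ∈ frontier Om, v z = 0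

theorem mem_Om_or {z : ℂ} (h : z ∈ closure Om) : z ∈ Om ∨ z ∈ frontier Om := by
  by_cases hz : z ∈ Om
  · exact Or.inl hz
  · exact Or.inr (mem_frontier_of h hz)

theorem Sol.nonneg {v : ℂ → ℝ} (hv : Sol v) {z : ℂ} (hz : z ∈ closure Om) : 0 ≤ v z := by
  rcases mem_Om_or hz with h | h
  · have := maxP isOpen_Om isBounded_Om (f := fun w => 0 - v w)
      (continuousOn_const.sub hv.cont)
      (fun w hw => ⟨contDiffAt_const.sub (hv.cd w hw), by
        rw [LL_sub contDiffAt_const (hv.cd w hw), LL_const, hv.eq w hw]; norm_num⟩)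
      (fun w hw => by simp only [hv.bd w hw]; norm_num) z h
    linarith
  · rw [hv.bd z h]

theorem Sol.upper1 {v : ℂ → ℝ} (hv : Sol v) {z : ℂ} (hz : z ∈ closure Om) : v z ≤ 4 - z.im ^ 2 := by
  have hc4 : ∀ w : ℂ, ContDiffAt ℝ 2 (fun w : ℂ => 4 - w.im ^ 2) w := fun w =>
    (contDiff_const.sub contDiff_im2).contDiffAt
  have him : ∀ w ∈ closure Om, w.im ^ 2 ≤ 4 := by
    intro w hw
    have h1 := (closure_Om_subset hw).2
    have h2 := abs_im_le_del w
    rw [← sq_abs]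
    nlinarith [abs_nonneg w.im]
  rcases mem_Om_or hz with h | h
  · have := maxP isOpen_Om isBounded_Om (f := fun w => v w - (4 - w.im ^ 2))
      (hv.cont.sub (by fun_prop))
      (fun w hw => ⟨(hv.cd w hw).sub (hc4 w), by
        rw [LL_sub (hv.cd w hw) (hc4 w), LL_sub contDiffAt_const contDiff_im2.contDiffAt, LL_const,
          LL_im2, hv.eq w hw]; norm_num⟩)
      (fun w hw => by simp only [hv.bd w hw]; linarith [him w hw.1]) z h
    linarith
  · rw [hv.bd z h]; linarith [him z hz]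

/-! ### The cross-cut -/

theorem cosh10 : 900 ≤ Real.cosh 10 := by
  have h1 : (2.7 : ℝ) ≤ Real.exp 1 := by linarith [Real.exp_one_gt_d9]
  have h2 : Real.exp 10 = Real.exp 1 ^ 10 := by rw [← Real.exp_nat_mul]; norm_num
  have h3 : (2.7 : ℝ) ^ 10 ≤ Real.exp 1 ^ 10 := pow_le_pow_left₀ (by norm_num) h1 10
  have h4 : (1800 : ℝ) ≤ 2.7 ^ 10 := by norm_num
  rw [Real.cosh_eq]
  have := Real.exp_pos (-10)
  linarith

/-- the analytic part of the comparison function on the corridor -/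
noncomputable def GG (w : ℂ) : ℂ :=
  ((9 / Real.cosh 10 : ℝ) : ℂ) * Complex.cosh (w - Complex.I) +
    ((2 + ρ : ℝ) : ℂ) * (-Complex.I * w) - ((2 * ρ : ℝ) : ℂ)

theorem GG_re (w : ℂ) : (GG w).re =
    9 / Real.cosh 10 * (Real.cosh w.re * Real.cos (w.im - 1)) + (2 + ρ) * w.im - 2 * ρ := by
  unfold GG
  have h1 : w - Complex.I = (w.re : ℂ) + ((w.im - 1 : ℝ) : ℂ) * Complex.I := by
    apply Complex.ext <;> simp
  have h2 : (Complex.cosh (w - Complex.I)).re = Real.cosh w.re * Real.cos (w.im - 1) := by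
    rw [h1, Complex.cosh_add, Complex.cosh_mul_I, Complex.sinh_mul_I, ← Complex.ofReal_cosh,
      ← Complex.ofReal_sinh, ← Complex.ofReal_cos, ← Complex.ofReal_sin]
    simp only [Complex.add_re, Complex.mul_re, Complex.mul_im, Complex.ofReal_re, Complex.ofReal_im,
      Complex.I_re, Complex.I_im]
    ring
  rw [Complex.sub_re, Complex.add_re, Complex.re_ofReal_mul, Complex.re_ofReal_mul, h2]
  simp

theorem analyticAt_GG (w : ℂ) : AnalyticAt ℂ GG w := by
  have h : Differentiable ℂ GG := by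
    unfold GG
    fun_prop
  exact h.analyticAt w

/-- the comparison function -/
noncomputable def gg (w : ℂ) : ℝ := (GG w).re - w.im ^ 2

theorem gg_eq (w : ℂ) : gg w =
    9 / Real.cosh 10 * (Real.cosh w.re * Real.cos (w.im - 1)) + (w.im - ρ) * (2 - w.im) := by
  unfold gg; rw [GG_re]; ring

theorem gg_cd (w : ℂ) : ContDiffAt ℝ 2 gg w ∧ LL gg w = -2 := by
  obtain ⟨h1, h2⟩ := LL_re (analyticAt_GG w)
  refine ⟨h1.sub contDiff_im2.contDiffAt, ?_⟩
  have : LL gg w = LL (fun w => (GG w).re) w - LL (fun w : ℂ => w.im ^ 2) w :=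
    LL_sub h1 contDiff_im2.contDiffAt
  rw [this, h2, LL_im2]; norm_num

/-- the corridor -/
def R0 : Set ℂ := {z | (-10 < z.re ∧ z.re < 10) ∧ (ρ < z.im ∧ z.im < 2)}

theorem isOpen_R0 : IsOpen R0 := by
  have h1 : IsOpen {z : ℂ | -10 < z.re} := isOpen_lt continuous_const (by fun_prop)
  have h2 : IsOpen {z : ℂ | z.re < 10} := isOpen_lt (by fun_prop) continuous_const
  have h3 : IsOpen {z : ℂ | ρ < z.im} := isOpen_lt continuous_const (by fun_prop)
  have h4 : IsOpen {z : ℂ | z.im < 2} := isOpen_lt (by fun_prop) continuous_const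
  exact (h1.inter h2).inter (h3.inter h4)

theorem R0_subset : R0 ⊆ Om := by
  rintro z ⟨⟨h1, h2⟩, h3, h4⟩
  have hp := ρ_pos
  have h5 : del z = z.im := by
    rw [del_of_abs_le (abs_le.2 ⟨h1.le, h2.le⟩), abs_of_pos (by linarith)]
  exact ⟨by rw [h5]; exact h3, by rw [h5]; exact h4, fun h => by have := h.2; linarith⟩

theorem closure_R0 : closure R0 ⊆ {z | (-10 ≤ z.re ∧ z.re ≤ 10) ∧ (ρ ≤ z.im ∧ z.im ≤ 2)} := by
  have h1 : IsClosed {z : ℂ | -10 ≤ z.re} := isClosed_le continuous_const (by fun_prop)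
  have h2 : IsClosed {z : ℂ | z.re ≤ 10} := isClosed_le (by fun_prop) continuous_const
  have h3 : IsClosed {z : ℂ | ρ ≤ z.im} := isClosed_le continuous_const (by fun_prop)
  have h4 : IsClosed {z : ℂ | z.im ≤ 2} := isClosed_le (by fun_prop) continuous_const
  refine closure_minimal ?_ ((h1.inter h2).inter (h3.inter h4))
  rintro z ⟨⟨h1, h2⟩, h3, h4⟩
  exact ⟨⟨h1.le, h2.le⟩, h3.le, h4.le⟩

theorem cos_half {t : ℝ} (h : |t| ≤ 1) : 1 / 2 ≤ Real.cos t := by
  have h1 := Real.one_sub_sq_div_two_le_cos (x := t)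
  have h2 : t ^ 2 ≤ 1 := by rw [← sq_abs]; nlinarith [abs_nonneg t]
  linarith

theorem Sol.cross {v : ℂ → ℝ} (hv : Sol v) {z : ℂ} (hz : z ∈ Om) (hre : z.re = 0) :
    v z < 51 / 50 := by
  have hp := ρ_pos
  have hp2 := ρ_lt
  have hc10 : 0 < Real.cosh 10 := Real.cosh_pos 10
  have hb : Bornology.IsBounded R0 := isBounded_Om.subset R0_subset
  have key := maxP isOpen_R0 hb (f := fun w => v w - gg w)
    ((hv.cont.mono (closure_mono R0_subset)).sub
      (fun w _ => (gg_cd w).1.continuousAt.continuousWithinAt))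
    (fun w hw => ⟨(hv.cd w (R0_subset hw)).sub (gg_cd w).1, by
      rw [LL_sub (hv.cd w (R0_subset hw)) (gg_cd w).1, (gg_cd w).2, hv.eq w (R0_subset hw)]
      norm_num⟩)
    (by
      intro w hw
      have hw1 : w ∈ closure R0 := hw.1
      have hw2 : w ∉ R0 := fun h => hw.2 (by rwa [isOpen_R0.interior_eq])
      obtain ⟨⟨h1, h2⟩, h3, h4⟩ := closure_R0 hw1
      have hwO : w ∈ closure Om := closure_mono R0_subset hw1
      have habs : |w.im - 1| ≤ 1 := abs_le.2 ⟨by linarith, by linarith⟩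
      have hcos := cos_half habs
      have hcosh : 0 < Real.cosh w.re := Real.cosh_pos _
      have h5 : 0 ≤ 9 / Real.cosh 10 * (Real.cosh w.re * Real.cos (w.im - 1)) := by positivity
      rw [gg_eq]
      have hdel : del w = w.im := by
        rw [del_of_abs_le (abs_le.2 ⟨h1, h2⟩), abs_of_pos (by linarith)]
      rcases eq_or_lt_of_le h3 with h6 | h6
      · have hv0 : v w = 0 := hv.bd w (mem_frontier_of hwO fun h => by
          have := h.1; rw [hdel] at this; linarith)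
        have h7 : (w.im - ρ) * (2 - w.im) = 0 := by rw [← h6]; ring
        rw [hv0, h7]
        linarith
      · rcases eq_or_lt_of_le h4 with h7 | h7
        · have hv0 : v w = 0 := hv.bd w (mem_frontier_of hwO fun h => by
            have := h.2.1; rw [hdel] at this; linarith)
          have h8 : (w.im - ρ) * (2 - w.im) = 0 := by rw [h7]; ring
          rw [hv0, h8]
          linarith
        · have h8 : Real.cosh w.re = Real.cosh 10 := by
            rcases eq_or_lt_of_le h1 with h | h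
            · rw [← h, Real.cosh_neg]
            · rcases eq_or_lt_of_le h2 with h' | h'
              · rw [h']
              · exact absurd ⟨⟨h, h'⟩, h6, h7⟩ hw2
          have h9 := hv.upper1 hwO
          rw [h8]
          have h10 : 9 / Real.cosh 10 * (Real.cosh 10 * Real.cos (w.im - 1)) =
              9 * Real.cos (w.im - 1) := by field_simp
          rw [h10]
          nlinarith)
  -- `z` lies in `R0`
  have hzim : 0 < z.im := by
    by_contra h
    exact hz.2.2 ⟨by rw [hre]; simp, not_lt.1 h⟩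
  have hdel : del z = z.im := by
    rw [del_of_abs_le (by rw [hre]; simp), abs_of_pos hzim]
  have hzR : z ∈ R0 := by
    refine ⟨by rw [hre]; constructor <;> norm_num, ?_, ?_⟩
    · rw [← hdel]; exact hz.1
    · rw [← hdel]; exact hz.2.1
  have h1 := key z hzR
  rw [gg_eq, hre, Real.cosh_zero, one_mul] at h1
  have h2 : 9 / Real.cosh 10 * Real.cos (z.im - 1) ≤ 1 / 100 := by
    have h3 : 9 / Real.cosh 10 ≤ 1 / 100 := by
      rw [div_le_iff₀ hc10]; linarith [cosh10]
    have h4 := Real.cos_le_one (z.im - 1)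
    have h5 : 0 ≤ 9 / Real.cosh 10 := by positivity
    nlinarith
  have h3 : (z.im - ρ) * (2 - z.im) ≤ 1 := by
    have : 0 < 2 - z.im := by linarith [hzR.2.2]
    nlinarith [sq_nonneg (z.im - 1)]
  linarith

/-! ### The turn -/

/-- square root of `(z - 10)/2` -/
noncomputable def sq (z : ℂ) : ℂ := ((z - 10) / 2) ^ (1 / 2 : ℂ)

theorem sq_sq (z : ℂ) : sq z ^ 2 = (z - 10) / 2 := by
  unfold sq
  rw [← Complex.cpow_nat_mul]
  norm_num

theorem sq_re_nonneg (z : ℂ) : 0 ≤ (sq z).re := by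
  unfold sq
  by_cases h : (z - 10) / 2 = 0
  · rw [h]; simp
  · rw [Complex.cpow_def_of_ne_zero h, Complex.exp_re]
    refine mul_nonneg (Real.exp_pos _).le (Real.cos_nonneg_of_mem_Icc ?_)
    have h1 : (Complex.log ((z - 10) / 2) * (1 / 2)).im = ((z - 10) / 2).arg / 2 := by
      rw [Complex.mul_im, Complex.log_im]; norm_num; ring
    rw [h1]
    have h2 := Complex.neg_pi_lt_arg ((z - 10) / 2)
    have h3 := Complex.arg_le_pi ((z - 10) / 2)
    constructor <;> linarith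

/-- the polynomial -/
noncomputable def FF (ζ : ℂ) : ℂ := 5 / 2 * ζ - 8 / 5 * ζ ^ 3 - 11 / 10 * ζ ^ 5 + 1 / 5 * ζ ^ 7

theorem FF_re (ζ : ℂ) : (FF ζ).re =
    ζ.re * (5 / 2 - 8 / 5 * (ζ.re ^ 2 - 3 * ζ.im ^ 2) -
      11 / 10 * (ζ.re ^ 4 - 10 * ζ.re ^ 2 * ζ.im ^ 2 + 5 * ζ.im ^ 4) +
      1 / 5 * (ζ.re ^ 6 - 21 * ζ.re ^ 4 * ζ.im ^ 2 + 35 * ζ.re ^ 2 * ζ.im ^ 4 - 7 * ζ.im ^ 6)) := by
  obtain ⟨x, y⟩ := ζ
  have h3 : (⟨x, y⟩ : ℂ) ^ 3 = ⟨x ^ 3 - 3 * x * y ^ 2, 3 * x ^ 2 * y - y ^ 3⟩ := by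
    apply Complex.ext <;> simp [pow_succ, Complex.mul_re, Complex.mul_im] <;> ring
  have h5 : (⟨x, y⟩ : ℂ) ^ 5 = ⟨x ^ 5 - 10 * x ^ 3 * y ^ 2 + 5 * x * y ^ 4,
      5 * x ^ 4 * y - 10 * x ^ 2 * y ^ 3 + y ^ 5⟩ := by
    apply Complex.ext <;> simp [pow_succ, Complex.mul_re, Complex.mul_im] <;> ring
  have h7 : (⟨x, y⟩ : ℂ) ^ 7 = ⟨x ^ 7 - 21 * x ^ 5 * y ^ 2 + 35 * x ^ 3 * y ^ 4 - 7 * x * y ^ 6,
      7 * x ^ 6 * y - 35 * x ^ 4 * y ^ 3 + 21 * x ^ 2 * y ^ 5 - y ^ 7⟩ := by
    apply Complex.ext <;> simp [pow_succ, Complex.mul_re, Complex.mul_im] <;> ring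
  unfold FF
  rw [h3, h5, h7]
  have c1 : (5 / 2 : ℂ) = ((5 / 2 : ℝ) : ℂ) := by push_cast; ring
  have c2 : (8 / 5 : ℂ) = ((8 / 5 : ℝ) : ℂ) := by push_cast; ring
  have c3 : (11 / 10 : ℂ) = ((11 / 10 : ℝ) : ℂ) := by push_cast; ring
  have c4 : (1 / 5 : ℂ) = ((1 / 5 : ℝ) : ℂ) := by push_cast; ring
  rw [c1, c2, c3, c4]
  simp only [Complex.add_re, Complex.sub_re, Complex.re_ofReal_mul]
  ring

/-- the subsolution -/
noncomputable def ww (z : ℂ) : ℝ := (FF (sq z)).re - z.im ^ 2 - 3 / 100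

theorem analyticAt_FF_sq {z : ℂ} (h : (z - 10) / 2 ∈ Complex.slitPlane) :
    AnalyticAt ℂ (fun z => FF (sq z)) z := by
  have h1 : AnalyticAt ℂ (fun z : ℂ => (z - 10) / 2) z := by
    have : Differentiable ℂ (fun z : ℂ => (z - 10) / 2) := by fun_prop
    exact this.analyticAt z
  have h2 : AnalyticAt ℂ sq z := by
    unfold sq
    exact h1.cpow analyticAt_const h
  unfold FF
  have h3 := h2.pow 3
  have h5 := h2.pow 5
  have h7 := h2.pow 7
  exact (((analyticAt_const.mul h2).sub (analyticAt_const.mul h3)).sub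
    (analyticAt_const.mul h5)).add (analyticAt_const.mul h7)

theorem slit_of_del {z : ℂ} (h1 : 0 < del z) (h2 : ‖z - 10‖ ≤ 2) :
    (z - 10) / 2 ∈ Complex.slitPlane := by
  rw [Complex.mem_slitPlane_iff]
  by_contra hc
  push Not at hc
  have e1 : ((z - 10) / 2).re = (z.re - 10) / 2 := by simp
  have e2 : ((z - 10) / 2).im = z.im / 2 := by simp
  rw [e1, e2] at hc
  have h3 := Complex.abs_re_le_norm (z - 10)
  rw [Complex.sub_re] at h3
  simp only [Complex.re_ofNat] at h3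
  have h4 := abs_le.1 (h3.trans h2)
  have h5 : |z.re| ≤ 10 := abs_le.2 ⟨by linarith, by linarith [hc.1]⟩
  rw [del_of_abs_le h5] at h1
  have h6 : z.im = 0 := by linarith [hc.2]
  rw [h6] at h1
  simp at h1

theorem ww_cd {z : ℂ} (h1 : 0 < del z) (h2 : ‖z - 10‖ ≤ 2) : ContDiffAt ℝ 2 ww z ∧ LL ww z = -2 := by
  obtain ⟨h3, h4⟩ := LL_re (analyticAt_FF_sq (slit_of_del h1 h2))
  have h5 : ContDiffAt ℝ 2 (fun w : ℂ => (FF (sq w)).re - w.im ^ 2) z := h3.sub contDiff_im2.contDiffAt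
  refine ⟨h5.sub contDiffAt_const, ?_⟩
  have e1 : LL ww z = LL (fun w : ℂ => (FF (sq w)).re - w.im ^ 2) z - LL (fun _ => 3 / 100) z :=
    LL_sub h5 contDiffAt_const
  rw [e1, LL_const, LL_sub h3 contDiff_im2.contDiffAt, h4, LL_im2]; norm_num

/-- the region of the turn -/
def UU : Set ℂ := {z | ‖z - 10‖ < 2 ∧ ρ < del z}

theorem isOpen_UU : IsOpen UU := by
  have h1 : IsOpen {z : ℂ | ‖z - 10‖ < 2} := isOpen_lt (by fun_prop) continuous_const
  have h2 : IsOpen {z : ℂ | ρ < del z} := isOpen_lt continuous_const continuous_del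
  exact h1.inter h2

theorem UU_subset : UU ⊆ Om := by
  rintro z ⟨h1, h2⟩
  have h3 := del_le (z := z) (t := 10) (by constructor <;> norm_num)
  have h4 := Complex.abs_re_le_norm (z - 10)
  rw [Complex.sub_re] at h4
  simp only [Complex.re_ofNat] at h4
  refine ⟨h2, ?_, fun h => ?_⟩
  · push_cast at h3; linarith
  · have h5 := abs_le.1 (h4.trans h1.le)
    have h6 := abs_le.1 h.1
    linarith [h5.1, h6.2]

theorem closure_UU : closure UU ⊆ {z | ‖z - 10‖ ≤ 2 ∧ ρ ≤ del z} := by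
  have h1 : IsClosed {z : ℂ | ‖z - 10‖ ≤ 2} := isClosed_le (by fun_prop) continuous_const
  have h2 : IsClosed {z : ℂ | ρ ≤ del z} := isClosed_le continuous_const continuous_del
  refine closure_minimal ?_ (h1.inter h2)
  rintro z ⟨h1, h2⟩
  exact ⟨h1.le, h2.le⟩

theorem sq_coords (z : ℂ) : (sq z).re ^ 2 - (sq z).im ^ 2 = (z.re - 10) / 2 ∧
    2 * (sq z).re * (sq z).im = z.im / 2 ∧ (sq z).re ^ 2 + (sq z).im ^ 2 = ‖z - 10‖ / 2 := by
  have h := sq_sq z
  have h1 := congrArg Complex.re h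
  have h2 := congrArg Complex.im h
  have h3 := congrArg norm h
  rw [pow_two, Complex.mul_re] at h1
  rw [pow_two, Complex.mul_im] at h2
  rw [norm_pow, norm_div, Complex.sq_norm, Complex.normSq_apply] at h3
  simp at h1 h2 h3
  refine ⟨by linarith, by linarith, by linarith⟩

theorem ww_le_circle {z : ℂ} (h : ‖z - 10‖ = 2) : ww z ≤ 0 := by
  obtain ⟨h1, h2, h3⟩ := sq_coords z
  have h4 : (sq z).re ^ 2 + (sq z).im ^ 2 = 1 := by rw [h3, h]; norm_num
  have h5 := circle_bound (sq_re_nonneg z) h4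
  unfold ww
  rw [FF_re]
  have h6 : z.im = 4 * (sq z).re * (sq z).im := by linarith
  rw [h6]
  linarith

theorem ww_le_slit {z : ℂ} (h : ‖z - 10‖ ≤ 2) (hd : del z = ρ) : ww z ≤ 0 := by
  obtain ⟨h1, h2, h3⟩ := sq_coords z
  have hre := sq_re_nonneg z
  have h4 : (sq z).re ^ 2 + (sq z).im ^ 2 ≤ 1 := by rw [h3]; linarith
  have hn := Complex.abs_re_le_norm (z - 10)
  rw [Complex.sub_re] at hn
  simp only [Complex.re_ofNat] at hn
  have hn' := abs_le.1 (hn.trans h)
  have h5 : (sq z).re ^ 2 ≤ ρ := by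
    rcases le_or_gt z.re 10 with h6 | h6
    · have h7 : |z.re| ≤ 10 := abs_le.2 ⟨by linarith [hn'.1], h6⟩
      rw [del_of_abs_le h7] at hd
      have h8 : (sq z).re ^ 2 ≤ (sq z).im ^ 2 := by linarith
      have h9 : ((sq z).re * (sq z).im) ^ 2 = (ρ / 4) ^ 2 := by
        have : (sq z).re * (sq z).im = z.im / 4 := by linarith
        rw [this, div_pow, div_pow, ← sq_abs z.im, hd]
      have h10 : ((sq z).re ^ 2) ^ 2 ≤ (ρ / 4) ^ 2 := by
        rw [← h9]; nlinarith [sq_nonneg (sq z).re]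
      have h11 := (abs_le_of_sq_le_sq' h10 (by linarith [ρ_pos])).2
      linarith [ρ_pos]
    · have h7 : del z = ‖z - 10‖ := by
        unfold del; rw [pr_of_ge h6.le]; norm_num
      rw [← h7, hd] at h3
      nlinarith [sq_nonneg (sq z).im, ρ_pos]
  have h6 : (sq z).re ≤ 1 / 1000 := by
    by_contra hc
    push Not at hc
    have := ρ_lt
    nlinarith
  have h7 := slit_bound hre h6 h4
  unfold ww
  rw [FF_re]
  nlinarith [sq_nonneg z.im]

/-- the point of the turn -/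
noncomputable def z0 : ℂ := ((10 + 18 / 25 : ℝ) : ℂ)

theorem z0_mem : z0 ∈ UU := by
  have h1 : z0 - 10 = ((18 / 25 : ℝ) : ℂ) := by unfold z0; push_cast; ring
  have h2 : ‖z0 - 10‖ = 18 / 25 := by
    rw [h1, Complex.norm_real, Real.norm_eq_abs, abs_of_pos (by norm_num)]
  have h3 : del z0 = 18 / 25 := by
    rw [← h2]; unfold del
    rw [pr_of_ge (by unfold z0; rw [Complex.ofReal_re]; norm_num)]
    norm_num
  refine ⟨by rw [h2]; norm_num, by rw [h3]; linarith [ρ_lt]⟩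

theorem sq_z0 : sq z0 = 3 / 5 := by
  have h := sq_sq z0
  have h1 : (z0 - 10) / 2 = (3 / 5) ^ 2 := by unfold z0; push_cast; norm_num
  rw [h1] at h
  rcases sq_eq_sq_iff_eq_or_eq_neg.1 h with h2 | h2
  · exact h2
  · exfalso
    have h3 := sq_re_nonneg z0
    rw [h2] at h3
    norm_num at h3

theorem ww_z0 : 26 / 25 ≤ ww z0 := by
  unfold ww
  rw [FF_re, sq_z0]
  have h1 : (3 / 5 : ℂ).re = 3 / 5 := by norm_num
  have h2 : (3 / 5 : ℂ).im = 0 := by norm_num
  have h3 : z0.im = 0 := by unfold z0; exact Complex.ofReal_im _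
  rw [h1, h2, h3]
  norm_num

theorem Sol.turn {v : ℂ → ℝ} (hv : Sol v) : 26 / 25 ≤ v z0 := by
  have hb : Bornology.IsBounded UU := isBounded_Om.subset UU_subset
  have hp := ρ_pos
  have key := maxP isOpen_UU hb (f := fun w => ww w - v w)
    (ContinuousOn.sub (fun w hw => by
        obtain ⟨h1, h2⟩ := closure_UU hw
        exact (ww_cd (by linarith) h1).1.continuousAt.continuousWithinAt)
      (hv.cont.mono (closure_mono UU_subset)))
    (fun w hw => by
      obtain ⟨h1, h2⟩ := ww_cd (z := w) (by linarith [hw.2]) hw.1.le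
      refine ⟨h1.sub (hv.cd w (UU_subset hw)), ?_⟩
      rw [LL_sub h1 (hv.cd w (UU_subset hw)), h2, hv.eq w (UU_subset hw)]; norm_num)
    (by
      intro w hw
      have hw1 : w ∈ closure UU := hw.1
      have hw2 : w ∉ UU := fun h => hw.2 (by rwa [isOpen_UU.interior_eq])
      obtain ⟨h1, h2⟩ := closure_UU hw1
      have h3 := hv.nonneg (closure_mono UU_subset hw1)
      have h4 : ww w ≤ 0 := by
        rcases eq_or_lt_of_le h1 with h | h
        · exact ww_le_circle h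
        · rcases eq_or_lt_of_le h2 with h' | h'
          · exact ww_le_slit h1 h'.symm
          · exact absurd ⟨h, h'⟩ hw2
      linarith)
  have h1 := key z0 z0_mem
  linarith [ww_z0]

end Pool.Agent.H230R3.TC
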