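import Pool.Agent.H230R3.TC.Max

set_option autoImplicit false
set_option linter.unusedSectionVars false
set_option linter.unusedVariables false
open Set Metric Filter Topology

namespace Pool.Agent.H230R3.TC

def topSeg : Set ℂ := {z | z.im = c0 ∧ z.re ∈ Icc (-10 : ℝ) 10}
def botR : Set ℂ := {z | z.im = -c0 ∧ z.re ∈ Icc (1 + hh) 10}
def botL : Set ℂ := {z | z.im = -c0 ∧ z.re ∈ Icc (-10 : ℝ) (-(1 + hh))}
noncomputable def arcR : Set ℂ :=
  (fun θ : ℝ => (10 : ℂ) + c0 * Complex.exp (θ * Complex.I)) '' Icc (-(Real.pi / 2)) (Real.pi / 2)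
noncomputable def arcL : Set ℂ :=
  (fun θ : ℝ => (-10 : ℂ) - c0 * Complex.exp (θ * Complex.I)) '' Icc (-(Real.pi / 2)) (Real.pi / 2)

theorem conn_seg (c : ℝ) {a b : ℝ} (hab : a ≤ b) :
    IsConnected {z : ℂ | z.im = c ∧ z.re ∈ Icc a b} := by
  have h : {z : ℂ | z.im = c ∧ z.re ∈ Icc a b} = (fun x : ℝ => (x : ℂ) + c * Complex.I) '' Icc a b := by
    ext z
    constructor
    · rintro ⟨h1, h2⟩
      refine ⟨z.re, h2, ?_⟩
      apply Complex.ext <;> simp [h1]
    · rintro ⟨x, hx, rfl⟩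
      simpa using hx
  rw [h]
  exact (isConnected_Icc hab).image _ (by fun_prop)

theorem conn_arcR : IsConnected arcR :=
  (isConnected_Icc (by linarith [Real.pi_pos])).image _ (by fun_prop)

theorem conn_arcL : IsConnected arcL :=
  (isConnected_Icc (by linarith [Real.pi_pos])).image _ (by fun_prop)

theorem c0_pos : 0 < c0 := by linarith [c0_gt]

/-- a vector of norm `c0` with nonnegative real part -/
theorem exists_angle {u : ℂ} (hu : ‖u‖ = c0) (hre : 0 ≤ u.re) :
    ∃ θ ∈ Icc (-(Real.pi / 2)) (Real.pi / 2), u = c0 * Complex.exp (θ * Complex.I) := by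
  refine ⟨u.arg, abs_le.1 (Complex.abs_arg_le_pi_div_two_iff.2 hre), ?_⟩
  rw [← hu, Complex.norm_mul_exp_arg_mul_I]

theorem angle_re {θ : ℝ} (hθ : θ ∈ Icc (-(Real.pi / 2)) (Real.pi / 2)) :
    0 ≤ ((c0 : ℂ) * Complex.exp (θ * Complex.I)).re ∧ ‖(c0 : ℂ) * Complex.exp (θ * Complex.I)‖ = c0 := by
  constructor
  · rw [Complex.re_ofReal_mul, Complex.exp_ofReal_mul_I_re]
    exact mul_nonneg c0_pos.le (Real.cos_nonneg_of_mem_Icc hθ)
  · rw [norm_mul, Complex.norm_exp_ofReal_mul_I, mul_one, Complex.norm_real, Real.norm_eq_abs,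
      abs_of_pos c0_pos]

theorem MM_eq : MM = (((topSeg ∪ arcR) ∪ botR) ∪ arcL) ∪ botL := by
  have hh1 := hh_lt
  have hh0 := hh_pos
  have hc := c0_pos
  ext z
  constructor
  · rintro ⟨h1, h2⟩
    rcases le_or_gt |z.re| 10 with h10 | h10
    · rw [del_of_abs_le h10] at h1
      rw [abs_le] at h10
      rcases le_or_gt 0 z.im with him | him
      · rw [abs_of_nonneg him] at h1
        exact Or.inl (Or.inl (Or.inl (Or.inl ⟨h1, h10⟩)))
      · rw [abs_of_neg him] at h1
        rcases h2 with h | h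
        · linarith
        · rcases le_abs.1 h with h' | h'
          · exact Or.inl (Or.inl (Or.inr ⟨by linarith, h', h10.2⟩))
          · exact Or.inr ⟨by linarith, h10.1, by linarith⟩
    · rcases lt_abs.1 h10 with h | h
      · have hp := pr_of_ge h.le
        have hn : ‖z - (10 : ℂ)‖ = c0 := by rw [← h1]; unfold del; rw [hp]; norm_num
        obtain ⟨θ, hθ, he⟩ := exists_angle hn (by simp; linarith)
        exact Or.inl (Or.inl (Or.inl (Or.inr ⟨θ, hθ, by simp only; rw [← he]; ring⟩)))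
      · have hp := pr_of_le (z := z) (by linarith)
        have hn : ‖-10 - z‖ = c0 := by
          rw [← h1]; unfold del; rw [hp, norm_sub_rev]; norm_num
        obtain ⟨θ, hθ, he⟩ := exists_angle hn (by simp; linarith)
        exact Or.inl (Or.inr ⟨θ, hθ, by simp only; rw [← he]; ring⟩)
  · rintro ((((⟨h1, h2⟩ | ⟨θ, hθ, rfl⟩) | ⟨h1, h2⟩) | ⟨θ, hθ, rfl⟩) | ⟨h1, h2⟩)
    · refine ⟨?_, Or.inl (by rw [h1]; exact hc)⟩
      rw [del_of_abs_le (abs_le.2 h2), h1, abs_of_pos hc]
    · obtain ⟨h3, h4⟩ := angle_re hθ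
      have hre : 10 ≤ ((10 : ℂ) + c0 * Complex.exp (θ * Complex.I)).re := by
        rw [Complex.add_re]; simp only [Complex.re_ofNat]; linarith
      refine ⟨?_, Or.inr (le_trans (by linarith) (le_abs_self _))⟩
      unfold del
      rw [pr_of_ge hre]
      push_cast
      rw [add_sub_cancel_left, h4]
    · have habs : |z.re| ≤ 10 := abs_le.2 ⟨by linarith [h2.1], h2.2⟩
      refine ⟨?_, Or.inr (h2.1.trans (le_abs_self _))⟩
      rw [del_of_abs_le habs, h1, abs_neg, abs_of_pos hc]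
    · obtain ⟨h3, h4⟩ := angle_re hθ
      have hre : ((-10 : ℂ) - c0 * Complex.exp (θ * Complex.I)).re ≤ -10 := by
        rw [Complex.sub_re]; simp only [Complex.neg_re, Complex.re_ofNat]; linarith
      refine ⟨?_, Or.inr (le_trans (by linarith) (neg_le_abs _))⟩
      unfold del
      rw [pr_of_le hre]
      push_cast
      have : (-10 : ℂ) - c0 * Complex.exp (θ * Complex.I) - -10 = -(c0 * Complex.exp (θ * Complex.I)) := by
        ring
      rw [this, norm_neg, h4]
    · have habs : |z.re| ≤ 10 := abs_le.2 ⟨h2.1, by linarith [h2.2]⟩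
      refine ⟨?_, Or.inr (le_trans ?_ (neg_le_abs _))⟩
      · rw [del_of_abs_le habs, h1, abs_neg, abs_of_pos hc]
      · linarith [h2.2]

theorem exp_half_pi : Complex.exp (((Real.pi / 2 : ℝ) : ℂ) * Complex.I) = Complex.I := by
  push_cast; exact Complex.exp_pi_div_two_mul_I

theorem exp_neg_half_pi : Complex.exp (((-(Real.pi / 2) : ℝ) : ℂ) * Complex.I) = -Complex.I := by
  push_cast; rw [← neg_div]; exact Complex.exp_neg_pi_div_two_mul_I

theorem isConnected_MM : IsConnected MM := by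
  have hh1 := hh_lt
  have hh0 := hh_pos
  have hpi := Real.pi_pos
  have m1 : Real.pi / 2 ∈ Icc (-(Real.pi / 2)) (Real.pi / 2) := ⟨by linarith, le_rfl⟩
  have m2 : -(Real.pi / 2) ∈ Icc (-(Real.pi / 2)) (Real.pi / 2) := ⟨le_rfl, by linarith⟩
  rw [MM_eq]
  have k1 : IsConnected (topSeg ∪ arcR) := by
    refine IsConnected.union ⟨(10 : ℂ) + c0 * Complex.I, ?_, ?_⟩ (conn_seg _ (by norm_num)) conn_arcR
    · refine ⟨by simp, by norm_num⟩
    · exact ⟨Real.pi / 2, m1, by simp only; rw [exp_half_pi]⟩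
  have k2 : IsConnected ((topSeg ∪ arcR) ∪ botR) := by
    refine IsConnected.union ⟨(10 : ℂ) - c0 * Complex.I, Or.inr ?_, ?_⟩ k1 (conn_seg _ (by linarith))
    · exact ⟨-(Real.pi / 2), m2, by simp only; rw [exp_neg_half_pi]; ring⟩
    · refine ⟨by simp, by simp; linarith⟩
  have k3 : IsConnected (((topSeg ∪ arcR) ∪ botR) ∪ arcL) := by
    refine IsConnected.union ⟨(-10 : ℂ) + c0 * Complex.I, Or.inl (Or.inl ?_), ?_⟩ k2 conn_arcL
    · refine ⟨by simp, by norm_num⟩
    · exact ⟨-(Real.pi / 2), m2, by simp only; rw [exp_neg_half_pi]; ring⟩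
  refine IsConnected.union ⟨(-10 : ℂ) - c0 * Complex.I, Or.inr ?_, ?_⟩ k3 (conn_seg _ (by linarith))
  · exact ⟨Real.pi / 2, m1, by simp only; rw [exp_half_pi]⟩
  · refine ⟨by simp, by simp; linarith⟩

theorem card_le : ENat.card (ConnectedComponents
    {z : ℂ | z ∈ Om ∧ IsLocalMax (fun w : ℂ => Metric.infDist w Omᶜ) z}) ≤ 1 := by
  rw [localMax_eq]
  have h : ConnectedSpace MM := isConnected_iff_connectedSpace.1 isConnected_MM
  have h2 : Subsingleton (ConnectedComponents MM) := inferInstance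
  exact (ENat.card_le_one_iff_subsingleton _).2 h2

end Pool.Agent.H230R3.TC
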