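import Pool.Agent.H230R3.TC.SC
import Pool.Agent.H230R3.TC.Lap
import Pool.Agent.H314.Dir.Dirichlet

set_option autoImplicit false
set_option linter.unusedSectionVars false
set_option linter.unusedVariables false
open Set Metric Filter Topology
open Pool.Agent.H314.Dir (Eu lap)

namespace Pool.Agent.H230R3.TC

theorem ext_ball {p : ℂ} (hp : p ∈ frontier Om) :
    ∃ r0 > 0, ∃ c, dist p c = r0 ∧ Disjoint (ball c r0) Om := by
  have hρ := ρ_pos
  rcases frontier_Om hp with h | h | ⟨h1, h2⟩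
  · refine ⟨ρ, ρ_pos, (pr p : ℂ), ?_, ?_⟩
    · rw [dist_eq_norm, ← h]; rfl
    · rw [Set.disjoint_left]
      intro w hw hwO
      rw [mem_ball, dist_eq_norm] at hw
      have := del_le (z := w) (pr_mem p)
      linarith [hwO.1]
  · refine ⟨1, one_pos, nrm (3 / 2) p, ?_, ?_⟩
    · rw [dist_comm, dist_eq_norm, dist_nrm, h]; norm_num
    · rw [Set.disjoint_left]
      intro w hw hwO
      rw [mem_ball, dist_eq_norm] at hw
      have h3 : del (nrm (3 / 2) p) = 3 := by rw [del_nrm (by norm_num), h]; norm_num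
      have h4 := del_lip (nrm (3 / 2) p) w
      rw [norm_sub_rev] at h4
      linarith [hwO.2.1]
  · have hne : |p.re| ≠ 0 := by rw [h1]; norm_num
    obtain ⟨c, hc1, hc2⟩ : ∃ c : ℂ, c.re = p.re * (1 - ρ / 2) ∧ c.im = p.im := ⟨⟨_, _⟩, rfl, rfl⟩
    have hcabs : |c.re| = 1 - ρ / 2 := by
      rw [hc1, abs_mul, h1, one_mul, abs_of_pos (by linarith [ρ_lt])]
    refine ⟨ρ / 2, by linarith, c, ?_, ?_⟩
    · rw [dist_eq_norm]
      have e : p - c = ((p.re * (ρ / 2) : ℝ) : ℂ) := by
        apply Complex.ext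
        · rw [Complex.sub_re, hc1, Complex.ofReal_re]; ring
        · rw [Complex.sub_im, hc2, Complex.ofReal_im]; ring
      rw [e, Complex.norm_real, Real.norm_eq_abs, abs_mul, h1, one_mul, abs_of_pos (by linarith)]
    · rw [Set.disjoint_left]
      intro w hw hwO
      rw [mem_ball, dist_eq_norm] at hw
      have h3 := Complex.abs_re_le_norm (w - c)
      have h4 := Complex.abs_im_le_norm (w - c)
      rw [Complex.sub_re] at h3
      rw [Complex.sub_im, hc2] at h4
      refine hwO.2.2 ⟨?_, ?_⟩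
      · have := abs_sub_abs_le_abs_sub w.re c.re
        linarith
      · have := le_abs_self (w.im - p.im)
        linarith

/-- the identification of `ℂ` with the Euclidean plane -/
noncomputable def ee : ℂ ≃ₗᵢ[ℝ] Eu 2 := Complex.orthonormalBasisOneI.repr

theorem ee_one : ee 1 = EuclideanSpace.single 0 1 := by
  have := Complex.orthonormalBasisOneI.repr_self 0
  simpa [ee] using this

theorem ee_I : ee Complex.I = EuclideanSpace.single 1 1 := by
  have := Complex.orthonormalBasisOneI.repr_self 1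
  simpa [ee] using this

theorem fderiv2_comp {u : Eu 2 → ℝ} {z : ℂ} (hu : ContDiffAt ℝ 2 u (ee z)) (d d' : ℂ) :
    fderiv ℝ (fderiv ℝ (fun w => u (ee w))) z d d' = fderiv ℝ (fderiv ℝ u) (ee z) (ee d) (ee d') := by
  have h1 : fderiv ℝ (fun w => u (ee w)) =
      fun w => (fderiv ℝ u (ee w)).comp (ee.toContinuousLinearEquiv : ℂ →L[ℝ] Eu 2) := by
    funext w
    exact ee.toContinuousLinearEquiv.comp_right_fderiv
  rw [h1]
  have h2 : DifferentiableAt ℝ (fderiv ℝ u) (ee z) :=
    (hu.fderiv_right (m := 1) (by norm_num)).differentiableAt (by norm_num)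
  have h3 : HasFDerivAt (fun w : ℂ => ee w) (ee.toContinuousLinearEquiv : ℂ →L[ℝ] Eu 2) z :=
    ee.toContinuousLinearEquiv.hasFDerivAt
  have h4 := h2.hasFDerivAt.comp z h3
  have h5 := h4.clm_comp (hasFDerivAt_const (ee.toContinuousLinearEquiv : ℂ →L[ℝ] Eu 2) z)
  have h6 := h5.fderiv
  simp only [Function.comp_def] at h6
  rw [h6]
  simp

theorem lap_transfer {u : Eu 2 → ℝ} {z : ℂ} (hu : ContDiffAt ℝ 2 u (ee z)) :
    LL (fun w => u (ee w)) z = lap u (ee z) := by
  rw [LL_eq, fderiv2_comp hu, fderiv2_comp hu, ee_one, ee_I]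
  unfold lap
  rw [Fin.sum_univ_two, iteratedFDeriv_two_apply, iteratedFDeriv_two_apply]

/-- Laplacian of `k (b - ‖y - c‖²)` -/
theorem lap_quad (k b : ℝ) (c x : Eu 2) : lap (fun y : Eu 2 => k * (b - ‖y - c‖ ^ 2)) x = -(4 * k) := by
  have h := Pool.Agent.H314.Dir.lap_radial (d := 2) (g := fun r => k * (b - r)) (g' := fun _ => -k)
    (g'' := fun _ => 0) c x
    (Eventually.of_forall fun r => by
      have := ((hasDerivAt_id r).const_sub b).const_mul k
      simpa using this) (hasDerivAt_const _ _)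
    (by
      have : ContDiff ℝ 2 fun y : Eu 2 => k * (b - ‖y - c‖ ^ 2) := by
        have h1 : ContDiff ℝ 2 fun y : Eu 2 => ‖y - c‖ ^ 2 := (contDiff_id.sub contDiff_const).norm_sq ℝ
        exact contDiff_const.mul (contDiff_const.sub h1)
      exact this.contDiffAt)
  rw [h]; push_cast; ring

theorem contDiff_quad (k b : ℝ) (c : Eu 2) : ContDiff ℝ 2 fun y : Eu 2 => k * (b - ‖y - c‖ ^ 2) := by
  have h1 : ContDiff ℝ 2 fun y : Eu 2 => ‖y - c‖ ^ 2 := (contDiff_id.sub contDiff_const).norm_sq ℝ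
  exact contDiff_const.mul (contDiff_const.sub h1)

/-- the reaction -/
noncomputable def ff (t : ℝ) : ℝ := min (1 / 100) (2 / 100 * (1 - t))

theorem ff_lip : LocallyLipschitz ff := by
  unfold ff
  refine (LocallyLipschitz.const _).min ?_
  exact ContDiff.locallyLipschitz (contDiff_const.mul (contDiff_const.sub contDiff_id) :
    ContDiff ℝ 1 fun t : ℝ => 2 / 100 * (1 - t))

theorem ball_subset_Om {z : ℂ} (hz : ‖z - Complex.I‖ < 1 / 2) : z ∈ Om := by
  have h1 := Complex.abs_re_le_norm (z - Complex.I)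
  have h2 := Complex.abs_im_le_norm (z - Complex.I)
  simp only [Complex.sub_re, Complex.I_re, sub_zero, Complex.sub_im, Complex.I_im] at h1 h2
  have h3 : |z.re| < 1 / 2 := by linarith
  have h4 : |z.im - 1| < 1 / 2 := by linarith
  rw [abs_lt] at h4
  have h5 : del z = z.im := by
    rw [del_of_abs_le (by linarith), abs_of_pos (by linarith [h4.1])]
  refine ⟨?_, ?_, fun h => ?_⟩
  · rw [h5]; linarith [ρ_lt, h4.1]
  · rw [h5]; linarith [h4.2]
  · have := h.2; linarith [h4.1]

theorem exists_v : ∃ v : ℂ → ℝ, ContDiffOn ℝ 2 v Om ∧ (∀ z ∈ Om, LL v z = -2) ∧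
    ContinuousOn v (closure Om) ∧ ∀ z ∈ frontier Om, v z = 0 := by
  set Ω : Set (Eu 2) := ee '' Om with hΩ
  have hΩo : IsOpen Ω := ee.toHomeomorph.isOpenMap _ isOpen_Om
  have hfr : frontier Ω = ee '' frontier Om := (ee.toHomeomorph.image_frontier Om).symm
  have hcl : closure Ω = ee '' closure Om := (ee.toHomeomorph.image_closure Om).symm
  have hnorm : ∀ x ∈ Ω, ‖x‖ < 12 := by
    rintro _ ⟨z, hz, rfl⟩
    rw [ee.norm_map]; exact norm_lt_of_mem hz
  set x0 : Eu 2 := ee Complex.I with hx0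
  have hx0n : ‖x0‖ = 1 := by rw [hx0, ee.norm_map, Complex.norm_I]
  have hV : ∀ x : Eu 2, ‖x - x0‖ ^ 2 < 1 / 4 → x ∈ Ω := by
    intro x hx
    refine ⟨ee.symm x, ball_subset_Om ?_, ee.apply_symm_apply x⟩
    have h1 : ‖ee.symm x - Complex.I‖ = ‖x - x0‖ := by
      rw [← ee.norm_map, map_sub, ee.apply_symm_apply]
    rw [h1]
    nlinarith [norm_nonneg (x - x0)]
  obtain ⟨u, hu1, hu2, hu3, hu4, hu5, hu6⟩ := Pool.Agent.H314.Dir.dirichlet_exists Ω hΩo
    (by
      intro p hp
      rw [hfr] at hp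
      obtain ⟨q, hq, rfl⟩ := hp
      obtain ⟨r0, hr0, c, hc1, hc2⟩ := ext_ball hq
      refine ⟨r0, hr0, ee c, by rw [ee.dist_map]; exact hc1, ?_⟩
      rw [Set.disjoint_left]
      rintro _ hw ⟨w, hw2, rfl⟩
      rw [mem_ball, ee.dist_map] at hw
      exact Set.disjoint_left.1 hc2 hw hw2)
    (isConnected_Om.isPreconnected.image _ ee.continuous.continuousOn)
    ff 1 one_pos ff_lip
    (by
      intro s hs t ht hst
      simp only [ff, one_mul]
      rw [← min_add_add_right, ← min_add_add_right]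
      exact min_le_min (by linarith) (by linarith))
    (by
      intro t ht
      exact le_min (by norm_num) (mul_nonneg (by norm_num) (by linarith [ht.2])))
    (by simp [ff])
    (fun x => 1 / 400 * max 0 (1 / 4 - ‖x - x0‖ ^ 2)) (fun x => 1 / 400 * max 0 (169 - ‖x‖ ^ 2))
    (by
      have h1 : LocallyLipschitz fun x : Eu 2 => 1 / 4 - ‖x - x0‖ ^ 2 := by
        have := contDiff_quad 1 (1 / 4) x0
        simp only [one_mul] at this
        exact (this.of_le (by norm_num)).locallyLipschitz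
      exact Pool.Agent.H314.Dir.LocallyLipschitz_mul (LocallyLipschitz.const _)
        ((LocallyLipschitz.const 0).max h1))
    (by
      have h1 : LocallyLipschitz fun x : Eu 2 => 169 - ‖x‖ ^ 2 := by
        have := contDiff_quad 1 169 0
        simp only [one_mul, sub_zero] at this
        exact (this.of_le (by norm_num)).locallyLipschitz
      exact Pool.Agent.H314.Dir.LocallyLipschitz_mul (LocallyLipschitz.const _)
        ((LocallyLipschitz.const 0).max h1))
    (fun x => by positivity)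
    (by
      intro x
      refine mul_le_mul_of_nonneg_left ?_ (by norm_num)
      have h1 : ‖x‖ ≤ ‖x - x0‖ + 1 := by
        rw [← hx0n]
        have := norm_add_le (x - x0) x0
        simpa using this
      by_cases h : ‖x - x0‖ ^ 2 < 1 / 4
      · have h2 : ‖x - x0‖ < 1 := by nlinarith [norm_nonneg (x - x0)]
        refine max_le_max le_rfl ?_
        nlinarith [norm_nonneg (x - x0), norm_nonneg x]
      · rw [max_eq_left (by linarith)]
        exact le_max_left _ _)
    (by
      intro x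
      have : max 0 (169 - ‖x‖ ^ 2) ≤ 169 := max_le (by norm_num) (by linarith [sq_nonneg ‖x‖])
      linarith)
    (by
      intro x hx
      have : ¬ ‖x - x0‖ ^ 2 < 1 / 4 := fun h => hx (hV x h)
      rw [max_eq_left (by linarith), mul_zero])
    (by
      intro x hx hpos
      have h1 : ‖x - x0‖ ^ 2 < 1 / 4 := by
        by_contra h
        rw [max_eq_left (by linarith), mul_zero] at hpos
        exact lt_irrefl _ hpos
      have hev : (fun y : Eu 2 => 1 / 400 * max 0 (1 / 4 - ‖y - x0‖ ^ 2)) =ᶠ[𝓝 x]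
          fun y => 1 / 400 * (1 / 4 - ‖y - x0‖ ^ 2) := by
        have : ∀ᶠ y in 𝓝 x, ‖y - x0‖ ^ 2 < 1 / 4 := by
          have hc : Continuous fun y : Eu 2 => ‖y - x0‖ ^ 2 := by fun_prop
          exact hc.continuousAt.eventually (gt_mem_nhds h1)
        filter_upwards [this] with y hy
        rw [max_eq_right (by linarith)]
      refine ⟨(contDiff_quad _ _ _).contDiffAt.congr_of_eventuallyEq hev, ?_⟩
      rw [Pool.Agent.H314.Dir.lap_congr hev, lap_quad]
      refine le_min (by norm_num) ?_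
      have : max 0 (1 / 4 - ‖x - x0‖ ^ 2) ≤ 1 / 4 := max_le (by norm_num) (by linarith [sq_nonneg ‖x - x0‖])
      linarith)
    (by
      intro x hx hS
      have h1 : ‖x‖ ^ 2 < 169 := by nlinarith [hnorm x hx, norm_nonneg x]
      have hev : (fun y : Eu 2 => 1 / 400 * max 0 (169 - ‖y‖ ^ 2)) =ᶠ[𝓝 x]
          fun y => 1 / 400 * (169 - ‖y - 0‖ ^ 2) := by
        have : ∀ᶠ y in 𝓝 x, ‖y‖ ^ 2 < 169 := by
          have hc : Continuous fun y : Eu 2 => ‖y‖ ^ 2 := by fun_prop
          exact hc.continuousAt.eventually (gt_mem_nhds h1)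
        filter_upwards [this] with y hy
        rw [max_eq_right (by linarith), sub_zero]
      refine ⟨(contDiff_quad _ _ _).contDiffAt.congr_of_eventuallyEq hev, ?_⟩
      rw [Pool.Agent.H314.Dir.lap_congr hev, lap_quad]
      refine (min_le_left _ _).trans (by norm_num))
    ⟨x0, by simp⟩
  have hcd : ∀ z ∈ Om, ContDiffAt ℝ 2 u (ee z) := fun z hz =>
    (hu1 (ee z) ⟨z, hz, rfl⟩).contDiffAt (hΩo.mem_nhds ⟨z, hz, rfl⟩)
  have hcd2 : ∀ z ∈ Om, ContDiffAt ℝ 2 (fun w => u (ee w)) z := fun z hz =>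
    (hcd z hz).comp z ee.toContinuousLinearEquiv.contDiff.contDiffAt
  refine ⟨fun z => 200 * u (ee z), ?_, ?_, ?_, ?_⟩
  · intro z hz
    exact (contDiffAt_const.mul (hcd2 z hz)).contDiffWithinAt
  · intro z hz
    rw [LL_smul 200 (hcd2 z hz), lap_transfer (hcd z hz)]
    have h1 := hu6 (ee z) ⟨z, hz, rfl⟩
    have h2 := (hu5 (ee z) ⟨z, hz, rfl⟩).2
    have h3 : max 0 (169 - ‖ee z‖ ^ 2) ≤ 169 := max_le (by norm_num) (by linarith [sq_nonneg ‖ee z‖])
    have h4 : ff (u (ee z)) = 1 / 100 := by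
      unfold ff; rw [min_eq_left]; linarith
    rw [h4] at h1
    linarith
  · have h1 : MapsTo ee (closure Om) (closure Ω) := fun z hz => by rw [hcl]; exact ⟨z, hz, rfl⟩
    exact continuousOn_const.mul (hu2.comp ee.continuous.continuousOn h1)
  · intro z hz
    simp only [hu3 (ee z) (by rw [hfr]; exact ⟨z, hz, rfl⟩), mul_zero]

end Pool.Agent.H230R3.TC
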