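import Pool.Agent.H230R3.TC.Bounds
import Pool.Agent.H230R3.TC.Conn
import Pool.Agent.H230R3.TC.Exist

set_option autoImplicit false
set_option linter.unusedSectionVars false
set_option linter.unusedVariables false
open Set Metric Filter Topology

namespace Pool.Agent.H230R3.TC

/-- the reflection `z ↦ -conj z` -/
noncomputable def RR : ℂ ≃ₗᵢ[ℝ] ℂ := Complex.conjLIE.trans (LinearIsometryEquiv.neg ℝ)

theorem RR_apply (z : ℂ) : RR z = -(starRingEnd ℂ) z := rfl

theorem RR_re (z : ℂ) : (RR z).re = -z.re := by rw [RR_apply]; simp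
theorem RR_im (z : ℂ) : (RR z).im = z.im := by rw [RR_apply]; simp

theorem RR_RR (z : ℂ) : RR (RR z) = z := by
  apply Complex.ext
  · rw [RR_re, RR_re]; ring
  · rw [RR_im, RR_im]

theorem pr_RR (z : ℂ) : pr (RR z) = -pr z := by
  rcases le_total z.re (-10) with h | h
  · rw [pr_of_le h, pr_of_ge (by rw [RR_re]; linarith)]; ring
  · rcases le_total z.re 10 with h' | h'
    · rw [pr_of_abs_le (abs_le.2 ⟨h, h'⟩), pr_of_abs_le, RR_re]
      rw [RR_re, abs_neg]; exact abs_le.2 ⟨h, h'⟩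
    · rw [pr_of_ge h', pr_of_le (by rw [RR_re]; linarith)]

theorem del_RR (z : ℂ) : del (RR z) = del z := by
  rw [← sq_eq_sq₀ (del_nonneg _) (del_nonneg _), del_sq, del_sq, RR_re, RR_im, pr_RR]; ring

theorem RR_mem_Om {z : ℂ} (h : z ∈ Om) : RR z ∈ Om := by
  obtain ⟨h1, h2, h3⟩ := h
  refine ⟨by rw [del_RR]; exact h1, by rw [del_RR]; exact h2, fun hq => h3 ?_⟩
  have h4 : |(RR z).re| ≤ 1 := hq.1
  have h5 : (RR z).im ≤ 0 := hq.2
  rw [RR_re, abs_neg] at h4
  rw [RR_im] at h5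
  exact ⟨h4, h5⟩

theorem RR_image : RR '' Om = Om := by
  ext z
  constructor
  · rintro ⟨w, hw, rfl⟩; exact RR_mem_Om hw
  · intro hz; exact ⟨RR z, RR_mem_Om hz, RR_RR z⟩

theorem RR_closure {z : ℂ} (h : z ∈ closure Om) : RR z ∈ closure Om := by
  have h1 : closure (RR '' Om) = RR '' closure Om := (RR.toHomeomorph.image_closure Om).symm
  rw [RR_image] at h1
  rw [h1]; exact ⟨z, h, rfl⟩

theorem RR_frontier {z : ℂ} (h : z ∈ frontier Om) : RR z ∈ frontier Om := by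
  have h1 : frontier (RR '' Om) = RR '' frontier Om := (RR.toHomeomorph.image_frontier Om).symm
  rw [RR_image] at h1
  rw [h1]; exact ⟨z, h, rfl⟩

theorem fderiv2_RR {u : ℂ → ℝ} {z : ℂ} (hu : ContDiffAt ℝ 2 u (RR z)) (d d' : ℂ) :
    fderiv ℝ (fderiv ℝ (fun w => u (RR w))) z d d' = fderiv ℝ (fderiv ℝ u) (RR z) (RR d) (RR d') := by
  have h1 : fderiv ℝ (fun w => u (RR w)) =
      fun w => (fderiv ℝ u (RR w)).comp (RR.toContinuousLinearEquiv : ℂ →L[ℝ] ℂ) := by
    funext w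
    exact RR.toContinuousLinearEquiv.comp_right_fderiv
  rw [h1]
  have h2 : DifferentiableAt ℝ (fderiv ℝ u) (RR z) :=
    (hu.fderiv_right (m := 1) (by norm_num)).differentiableAt (by norm_num)
  have h3 : HasFDerivAt (fun w : ℂ => RR w) (RR.toContinuousLinearEquiv : ℂ →L[ℝ] ℂ) z :=
    RR.toContinuousLinearEquiv.hasFDerivAt
  have h4 := h2.hasFDerivAt.comp z h3
  have h5 := h4.clm_comp (hasFDerivAt_const (RR.toContinuousLinearEquiv : ℂ →L[ℝ] ℂ) z)
  have h6 := h5.fderiv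
  simp only [Function.comp_def] at h6
  rw [h6]
  simp

theorem LL_RR {u : ℂ → ℝ} {z : ℂ} (hu : ContDiffAt ℝ 2 u (RR z)) :
    LL (fun w => u (RR w)) z = LL u (RR z) := by
  have h1 : RR 1 = -1 := by apply Complex.ext <;> simp [RR_re, RR_im]
  have h2 : RR Complex.I = Complex.I := by apply Complex.ext <;> simp [RR_re, RR_im]
  rw [LL_eq, LL_eq, fderiv2_RR hu, fderiv2_RR hu, h1, h2]
  simp

theorem Sol.refl {v : ℂ → ℝ} (hv : Sol v) : Sol (fun w => v (RR w)) where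
  cd z hz := (hv.cd _ (RR_mem_Om hz)).comp z RR.toContinuousLinearEquiv.contDiff.contDiffAt
  eq z hz := by rw [LL_RR (hv.cd _ (RR_mem_Om hz)), hv.eq _ (RR_mem_Om hz)]
  cont := hv.cont.comp RR.continuous.continuousOn fun z hz => RR_closure hz
  bd z hz := hv.bd _ (RR_frontier hz)

/-- a critical point on the side `{0 < s · re}` -/
theorem Sol.crit {v : ℂ → ℝ} (hv : Sol v) (s : ℝ) {p : ℂ} (hp : p ∈ Om) (hps : 0 ≤ s * p.re)
    (hs : s ≠ 0) (hvp : 26 / 25 ≤ v p) : ∃ z ∈ Om, 0 < s * z.re ∧ fderiv ℝ v z = 0 := by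
  have hcl : IsClosed {z : ℂ | 0 ≤ s * z.re} := isClosed_le continuous_const (by fun_prop)
  have hK : IsCompact (closure Om ∩ {z : ℂ | 0 ≤ s * z.re}) :=
    isBounded_Om.isCompact_closure.inter_right hcl
  obtain ⟨z1, ⟨hz1, hz1s⟩, hmax⟩ := hK.exists_isMaxOn ⟨p, subset_closure hp, hps⟩
    (hv.cont.mono inter_subset_left)
  have h1 : v p ≤ v z1 := hmax ⟨subset_closure hp, hps⟩
  have hz1O : z1 ∈ Om := by
    rcases mem_Om_or hz1 with h | h
    · exact h
    · rw [hv.bd z1 h] at h1; linarith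
  have hne : z1.re ≠ 0 := fun h => by
    have := hv.cross hz1O h
    linarith
  have hpos : 0 < s * z1.re := lt_of_le_of_ne hz1s (mul_ne_zero hs hne).symm
  refine ⟨z1, hz1O, hpos, ?_⟩
  have hlm : IsLocalMax v z1 := by
    have ho : IsOpen {z : ℂ | 0 < s * z.re} := isOpen_lt continuous_const (by fun_prop)
    filter_upwards [isOpen_Om.mem_nhds hz1O, ho.mem_nhds hpos] with w hw1 hw2
    exact hmax ⟨subset_closure hw1, le_of_lt hw2⟩
  exact hlm.fderiv_eq_zero

theorem z0_re : z0.re = 10 + 18 / 25 := by unfold z0; exact Complex.ofReal_re _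

theorem two_crit {v : ℂ → ℝ} (hv : Sol v) : 2 ≤ Set.encard {z : ℂ | z ∈ Om ∧ fderiv ℝ v z = 0} := by
  obtain ⟨z1, h1, h2, h3⟩ := hv.crit 1 (UU_subset z0_mem) (by rw [z0_re]; norm_num) one_ne_zero hv.turn
  obtain ⟨z2, h4, h5, h6⟩ := hv.crit (-1) (RR_mem_Om (UU_subset z0_mem))
    (by rw [RR_re, z0_re]; norm_num) (by norm_num) hv.refl.turn
  have hne : z1 ≠ z2 := by
    rintro rfl
    linarith
  rw [← Set.encard_pair hne]
  refine Set.encard_le_encard ?_
  rintro z (rfl | rfl)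
  · exact ⟨h1, h3⟩
  · exact ⟨h4, h6⟩

end Pool.Agent.H230R3.TC
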