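import Mathlib

set_option autoImplicit false
set_option linter.unusedSectionVars false
set_option linter.unusedVariables false
open Set Metric Filter Topology

namespace Pool.Agent.H230R3.TC

/-- the inner radius -/
noncomputable def ρ : ℝ := 1 / 10 ^ 8

theorem ρ_pos : 0 < ρ := by unfold ρ; positivity
theorem ρ_lt : ρ < 1 / 10 ^ 7 := by unfold ρ; norm_num

/-- the abscissa of the nearest point of the segment `J = [-10,10]` -/
noncomputable def pr (z : ℂ) : ℝ := max (-10) (min 10 z.re)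

/-- the distance to the segment `J` -/
noncomputable def del (z : ℂ) : ℝ := ‖z - (pr z : ℂ)‖

theorem pr_mem (z : ℂ) : pr z ∈ Icc (-10 : ℝ) 10 := by
  unfold pr
  exact ⟨le_max_left _ _, max_le (by norm_num) (min_le_left _ _)⟩

theorem continuous_pr : Continuous pr := by
  unfold pr
  exact continuous_const.max (continuous_const.min Complex.continuous_re)

theorem continuous_del : Continuous del := by
  unfold del
  exact (continuous_id.sub (Complex.continuous_ofReal.comp continuous_pr)).norm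

theorem del_nonneg (z : ℂ) : 0 ≤ del z := norm_nonneg _

theorem del_sq (z : ℂ) : del z ^ 2 = (z.re - pr z) ^ 2 + z.im ^ 2 := by
  unfold del
  rw [Complex.sq_norm, Complex.normSq_apply]
  simp
  ring

theorem pr_le_abs (z : ℂ) {t : ℝ} (ht : t ∈ Icc (-10 : ℝ) 10) : |z.re - pr z| ≤ |z.re - t| := by
  unfold pr
  obtain ⟨h1, h2⟩ := ht
  rcases le_total z.re (-10) with h | h
  · rw [min_eq_right (by linarith), max_eq_left h, abs_of_nonpos (by linarith),
      abs_of_nonpos (by linarith)]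
    linarith
  · rcases le_total z.re 10 with h' | h'
    · rw [min_eq_right h', max_eq_right h]; simp
    · rw [min_eq_left h', max_eq_right (by norm_num), abs_of_nonneg (by linarith),
        abs_of_nonneg (by linarith)]
      linarith

theorem del_le {z : ℂ} {t : ℝ} (ht : t ∈ Icc (-10 : ℝ) 10) : del z ≤ ‖z - (t : ℂ)‖ := by
  have h1 : del z ^ 2 ≤ ‖z - (t : ℂ)‖ ^ 2 := by
    rw [del_sq, Complex.sq_norm, Complex.normSq_apply]
    simp
    have := sq_le_sq.2 (pr_le_abs z ht)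
    nlinarith
  exact (abs_le_of_sq_le_sq' h1 (norm_nonneg _)).2

theorem del_lip (z w : ℂ) : del z ≤ del w + ‖z - w‖ := by
  have h1 := del_le (z := z) (pr_mem w)
  have h2 : ‖z - (pr w : ℂ)‖ ≤ ‖z - w‖ + ‖w - (pr w : ℂ)‖ := by
    have : z - (pr w : ℂ) = (z - w) + (w - (pr w : ℂ)) := by ring
    rw [this]; exact norm_add_le _ _
  unfold del at *
  linarith

theorem pr_of_abs_le {z : ℂ} (h : |z.re| ≤ 10) : pr z = z.re := by
  unfold pr
  rw [abs_le] at h
  rw [min_eq_right h.2, max_eq_right h.1]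

theorem pr_of_ge {z : ℂ} (h : 10 ≤ z.re) : pr z = 10 := by
  unfold pr
  rw [min_eq_left h, max_eq_right (by norm_num)]

theorem pr_of_le {z : ℂ} (h : z.re ≤ -10) : pr z = -10 := by
  unfold pr
  rw [min_eq_right (by linarith), max_eq_left h]

theorem del_of_abs_le {z : ℂ} (h : |z.re| ≤ 10) : del z = |z.im| := by
  have h1 := del_sq z
  rw [pr_of_abs_le h, sub_self] at h1
  rw [← sq_eq_sq₀ (del_nonneg z) (abs_nonneg _), h1, sq_abs]; ring

theorem abs_im_le_del (z : ℂ) : |z.im| ≤ del z := by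
  have h1 := del_sq z
  rw [← abs_of_nonneg (del_nonneg z), ← sq_le_sq]
  nlinarith [sq_nonneg (z.re - pr z)]

theorem abs_re_le_del (z : ℂ) : |z.re| ≤ 10 + del z := by
  have h1 := del_sq z
  have h2 := pr_mem z
  have h3 : |z.re - pr z| ≤ del z := by
    rw [← abs_of_nonneg (del_nonneg z), ← sq_le_sq]
    nlinarith [sq_nonneg (z.im)]
  rw [abs_le] at h3 ⊢
  exact ⟨by linarith [h2.1], by linarith [h2.2]⟩

/-- moving along the normal: `p + τ (z - p)` -/
noncomputable def nrm (τ : ℝ) (z : ℂ) : ℂ := (pr z : ℂ) + (τ : ℂ) * (z - (pr z : ℂ))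

theorem nrm_re (τ : ℝ) (z : ℂ) : (nrm τ z).re = pr z + τ * (z.re - pr z) := by
  simp [nrm]

theorem nrm_im (τ : ℝ) (z : ℂ) : (nrm τ z).im = τ * z.im := by
  simp [nrm]

theorem pr_nrm {τ : ℝ} (hτ : 0 ≤ τ) (z : ℂ) : pr (nrm τ z) = pr z := by
  rcases le_total z.re (-10) with h | h
  · rw [pr_of_le (z := nrm τ z), pr_of_le h]
    rw [nrm_re, pr_of_le h]
    have : τ * (z.re - -10) ≤ 0 := mul_nonpos_of_nonneg_of_nonpos hτ (by linarith)
    linarith
  · rcases le_total z.re 10 with h' | h'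
    · have h1 : pr z = z.re := pr_of_abs_le (abs_le.2 ⟨h, h'⟩)
      have h2 : (nrm τ z).re = z.re := by rw [nrm_re, h1]; ring
      rw [pr_of_abs_le (z := nrm τ z) (by rw [h2]; exact abs_le.2 ⟨h, h'⟩), h2, h1]
    · rw [pr_of_ge (z := nrm τ z), pr_of_ge h']
      rw [nrm_re, pr_of_ge h']
      have : 0 ≤ τ * (z.re - 10) := mul_nonneg hτ (by linarith)
      linarith

theorem del_nrm {τ : ℝ} (hτ : 0 ≤ τ) (z : ℂ) : del (nrm τ z) = τ * del z := by
  unfold del
  rw [pr_nrm hτ]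
  have : nrm τ z - (pr z : ℂ) = (τ : ℂ) * (z - (pr z : ℂ)) := by unfold nrm; ring
  rw [this, norm_mul, Complex.norm_real, Real.norm_eq_abs, abs_of_nonneg hτ]

theorem dist_nrm (τ : ℝ) (z : ℂ) : ‖nrm τ z - z‖ = |τ - 1| * del z := by
  have : nrm τ z - z = ((τ - 1 : ℝ) : ℂ) * (z - (pr z : ℂ)) := by
    unfold nrm; push_cast; ring
  rw [this, norm_mul, Complex.norm_real, Real.norm_eq_abs]
  rfl

/-- the removed piece `Q = [-1,1] × (-∞,0]` -/
def QQ : Set ℂ := {z | |z.re| ≤ 1 ∧ z.im ≤ 0}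

theorem isClosed_QQ : IsClosed QQ := by
  have h1 : IsClosed {z : ℂ | |z.re| ≤ 1} := isClosed_le (by fun_prop) continuous_const
  have h2 : IsClosed {z : ℂ | z.im ≤ 0} := isClosed_le (by fun_prop) continuous_const
  exact h1.inter h2

/-- the domain -/
def Om : Set ℂ := {z | ρ < del z ∧ del z < 2 ∧ z ∉ QQ}

theorem isOpen_Om : IsOpen Om := by
  have h1 : IsOpen {z : ℂ | ρ < del z} := isOpen_lt continuous_const continuous_del
  have h2 : IsOpen {z : ℂ | del z < 2} := isOpen_lt continuous_del continuous_const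
  exact h1.inter (h2.inter isClosed_QQ.isOpen_compl)

theorem norm_lt_of_mem {z : ℂ} (h : z ∈ Om) : ‖z‖ < 12 := by
  have h1 : ‖z‖ ≤ ‖z - (pr z : ℂ)‖ + ‖(pr z : ℂ)‖ := by
    have := norm_add_le (z - (pr z : ℂ)) (pr z : ℂ)
    simpa using this
  have h2 : ‖(pr z : ℂ)‖ ≤ 10 := by
    rw [Complex.norm_real, Real.norm_eq_abs, abs_le]
    exact pr_mem z
  have h3 : del z < 2 := h.2.1
  unfold del at h3
  linarith

theorem isBounded_Om : Bornology.IsBounded Om :=
  (Metric.isBounded_iff_subset_ball (0 : ℂ)).2 ⟨12, fun z hz => by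
    rw [mem_ball_zero_iff]; exact norm_lt_of_mem hz⟩

theorem closure_Om_subset : closure Om ⊆ {z | ρ ≤ del z ∧ del z ≤ 2} := by
  refine closure_minimal (fun z hz => ⟨hz.1.le, hz.2.1.le⟩) ?_
  exact (isClosed_le continuous_const continuous_del).inter
    (isClosed_le continuous_del continuous_const)

theorem QQ_re {z : ℂ} (h : z ∈ QQ) : |z.re| ≤ 10 := h.1.trans (by norm_num)

/-- a point of the closure which belongs to `QQ` lies on the vertical sides -/
theorem closure_Om_QQ {z : ℂ} (h : z ∈ closure Om) (hQ : z ∈ QQ) : |z.re| = 1 ∧ z.im ≤ -ρ := by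
  have h1 := (closure_Om_subset h).1
  rw [del_of_abs_le (QQ_re hQ), abs_of_nonpos hQ.2] at h1
  refine ⟨?_, by linarith⟩
  by_contra hne
  have hlt : |z.re| < 1 := lt_of_le_of_ne hQ.1 hne
  -- the interior of `QQ` misses `Om`
  have hU : IsOpen {w : ℂ | |w.re| < 1 ∧ w.im < 0} := by
    have h1 : IsOpen {z : ℂ | |z.re| < 1} := isOpen_lt (by fun_prop) continuous_const
    have h2 : IsOpen {z : ℂ | z.im < 0} := isOpen_lt (by fun_prop) continuous_const
    exact h1.inter h2
  have hz : z ∈ {w : ℂ | |w.re| < 1 ∧ w.im < 0} := ⟨hlt, by linarith [ρ_pos]⟩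
  obtain ⟨w, hw1, hw2⟩ := mem_closure_iff.1 h _ hU hz
  exact hw2.2.2 ⟨hw1.1.le, hw1.2.le⟩

theorem frontier_Om {z : ℂ} (h : z ∈ frontier Om) :
    del z = ρ ∨ del z = 2 ∨ (|z.re| = 1 ∧ z.im ≤ -ρ) := by
  have h1 : z ∈ closure Om := h.1
  have h2 : z ∉ Om := fun hz => h.2 (by rwa [isOpen_Om.interior_eq])
  by_cases hQ : z ∈ QQ
  · exact Or.inr (Or.inr (closure_Om_QQ h1 hQ))
  · have h3 := closure_Om_subset h1
    rcases eq_or_lt_of_le h3.1 with h4 | h4
    · exact Or.inl h4.symm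
    · rcases eq_or_lt_of_le h3.2 with h5 | h5
      · exact Or.inr (Or.inl h5)
      · exact absurd ⟨h4, h5, hQ⟩ h2

theorem mem_frontier_of {z : ℂ} (h : z ∈ closure Om) (h2 : z ∉ Om) : z ∈ frontier Om :=
  ⟨h, by rwa [isOpen_Om.interior_eq]⟩

end Pool.Agent.H230R3.TC
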