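import Pool.Agent.H230R3.TC.Geom

set_option autoImplicit false
set_option linter.unusedSectionVars false
set_option linter.unusedVariables false
open Set Metric Filter Topology

namespace Pool.Agent.H230R3.TC

/-- `δ` of the middle curve -/
noncomputable def c0 : ℝ := 1 + ρ / 2
/-- the half-width -/
noncomputable def hh : ℝ := 1 - ρ / 2

theorem c0_hh1 : c0 - hh = ρ := by unfold c0 hh; ring
theorem c0_hh2 : c0 + hh = 2 := by unfold c0 hh; ring
theorem hh_pos : 0 < hh := by unfold hh; linarith [ρ_lt]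
theorem hh_lt : hh < 1 := by unfold hh; linarith [ρ_pos]
theorem c0_gt : 1 < c0 := by unfold c0; linarith [ρ_pos]
theorem c0_lt : c0 < 2 := by linarith [c0_hh2, hh_pos]

/-- distance to the complement -/
noncomputable def dd (z : ℂ) : ℝ := infDist z Omᶜ

theorem compl_nonempty : (Omᶜ).Nonempty := ⟨0, fun h => h.2.2 ⟨by simp, by simp⟩⟩

theorem le_dist_of {z w : ℂ} (hw : w ∉ Om) (hwQ : w ∉ QQ) : hh - |del z - c0| ≤ dist z w := by
  rw [dist_eq_norm]
  have h1 := del_lip z w
  have h2 := del_lip w z
  rw [norm_sub_rev w z] at h2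
  have h3 : del w ≤ ρ ∨ 2 ≤ del w := by
    by_contra hc
    push Not at hc
    exact hw ⟨hc.1, hc.2, hwQ⟩
  have h4 := c0_hh1
  have h5 := c0_hh2
  rcases h3 with h | h
  · have := neg_abs_le (del z - c0); linarith
  · have := le_abs_self (del z - c0); linarith

theorem le_dist_QQ_pos {z w : ℂ} (hz : 0 < z.im) (hw : w ∈ QQ) : hh - |del z - c0| ≤ dist z w := by
  rw [dist_eq_norm]
  have h1 : del z ≤ ‖z - (w.re : ℂ)‖ := del_le (abs_le.1 (QQ_re hw))
  have h2 : ‖z - (w.re : ℂ)‖ ≤ ‖z - w‖ := by
    have : ‖z - (w.re : ℂ)‖ ^ 2 ≤ ‖z - w‖ ^ 2 := by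
      rw [Complex.sq_norm, Complex.sq_norm, Complex.normSq_apply, Complex.normSq_apply]
      simp only [Complex.sub_re, Complex.ofReal_re, Complex.sub_im, Complex.ofReal_im, sub_zero]
      have h3 : w.im ≤ 0 := hw.2
      nlinarith
    exact (abs_le_of_sq_le_sq' this (norm_nonneg _)).2
  have h4 := c0_hh1
  have h5 := neg_abs_le (del z - c0)
  linarith [ρ_pos]

theorem le_dist_QQ_neg {z w : ℂ} (hw : w ∈ QQ) : |z.re| - 1 ≤ dist z w := by
  rw [dist_eq_norm]
  have h1 : |(z - w).re| ≤ ‖z - w‖ := Complex.abs_re_le_norm _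
  rw [Complex.sub_re] at h1
  have h2 := abs_sub_abs_le_abs_sub z.re w.re
  have h3 : |w.re| ≤ 1 := hw.1
  linarith

theorem dd_le {z : ℂ} (hz : z ∈ Om) : dd z ≤ hh - |del z - c0| := by
  have h0 : 0 < del z := ρ_pos.trans hz.1
  have h4 := c0_hh1
  have h5 := c0_hh2
  rcases le_total (del z) c0 with h | h
  · rw [abs_of_nonpos (by linarith)]
    have hτ : 0 ≤ ρ / del z := by positivity [ρ_pos]
    have hd : del (nrm (ρ / del z) z) = ρ := by rw [del_nrm hτ, div_mul_cancel₀ _ h0.ne']
    have hn : nrm (ρ / del z) z ∈ Omᶜ := fun hc => by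
      have := hc.1; rw [hd] at this; exact lt_irrefl _ this
    refine (infDist_le_dist_of_mem hn).trans ?_
    rw [dist_comm, dist_eq_norm, dist_nrm]
    have : |ρ / del z - 1| = 1 - ρ / del z := by
      rw [abs_of_nonpos]
      · ring
      · rw [sub_nonpos, div_le_one h0]; exact hz.1.le
    rw [this, sub_mul, div_mul_cancel₀ _ h0.ne']
    linarith
  · rw [abs_of_nonneg (by linarith)]
    have hτ : 0 ≤ 2 / del z := by positivity
    have hd : del (nrm (2 / del z) z) = 2 := by rw [del_nrm hτ, div_mul_cancel₀ _ h0.ne']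
    have hn : nrm (2 / del z) z ∈ Omᶜ := fun hc => by
      have := hc.2.1; rw [hd] at this; exact lt_irrefl _ this
    refine (infDist_le_dist_of_mem hn).trans ?_
    rw [dist_comm, dist_eq_norm, dist_nrm]
    have : |2 / del z - 1| = 2 / del z - 1 := by
      rw [abs_of_nonneg]
      rw [sub_nonneg, one_le_div h0]; exact hz.2.1.le
    rw [this, sub_mul, div_mul_cancel₀ _ h0.ne']
    linarith

theorem dd_le_hh (z : ℂ) : dd z ≤ hh := by
  by_cases hz : z ∈ Om
  · have := dd_le hz
    linarith [abs_nonneg (del z - c0)]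
  · have : dd z = 0 := infDist_zero_of_mem hz
    rw [this]; exact hh_pos.le

theorem dd_pos_im {z : ℂ} (hz : z ∈ Om) (him : 0 < z.im) : dd z = hh - |del z - c0| := by
  refine le_antisymm (dd_le hz) ?_
  unfold dd
  rw [le_infDist compl_nonempty]
  intro w hw
  by_cases hQ : w ∈ QQ
  · exact le_dist_QQ_pos him hQ
  · exact le_dist_of hw hQ

theorem one_lt_abs_re {z : ℂ} (hz : z ∈ Om) (him : z.im ≤ 0) : 1 < |z.re| := by
  by_contra hc
  exact hz.2.2 ⟨not_lt.1 hc, him⟩

theorem dd_neg_im {z : ℂ} (hz : z ∈ Om) (him : z.im ≤ 0) :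
    dd z = min (hh - |del z - c0|) (|z.re| - 1) := by
  refine le_antisymm (le_min (dd_le hz) ?_) ?_
  · have h1 := one_lt_abs_re hz him
    let s : ℝ := z.re / |z.re|
    have hne : |z.re| ≠ 0 := by linarith
    have hs : |s| = 1 := by
      simp only [s, abs_div, abs_abs]; exact div_self hne
    have hzr : z.re = s * |z.re| := by simp only [s]; field_simp
    let w : ℂ := ⟨s, z.im⟩
    have hw : w ∈ Omᶜ := fun hc => hc.2.2 ⟨by simp only [w]; exact hs.le, by simp only [w]; exact him⟩
    refine (infDist_le_dist_of_mem hw).trans ?_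
    rw [dist_eq_norm]
    have e : z - w = ((s * (|z.re| - 1) : ℝ) : ℂ) := by
      apply Complex.ext
      · simp only [w, Complex.sub_re, Complex.ofReal_re]
        conv_lhs => rw [hzr]
        ring
      · simp [w]
    rw [e, Complex.norm_real, Real.norm_eq_abs, abs_mul, hs, one_mul, abs_of_pos (by linarith)]
  · unfold dd
    rw [le_infDist compl_nonempty]
    intro w hw
    by_cases hQ : w ∈ QQ
    · exact (min_le_right _ _).trans (le_dist_QQ_neg hQ)
    · exact (min_le_left _ _).trans (le_dist_of hw hQ)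

/-- the ridge -/
def MM : Set ℂ := {z | del z = c0 ∧ (0 < z.im ∨ 1 + hh ≤ |z.re|)}

theorem MM_subset_Om {z : ℂ} (hz : z ∈ MM) : z ∈ Om := by
  obtain ⟨h1, h2⟩ := hz
  refine ⟨by rw [h1]; linarith [c0_hh1, hh_pos], by rw [h1]; exact c0_lt, fun hq => ?_⟩
  rcases h2 with h | h
  · exact absurd hq.2 (not_le.2 h)
  · have := hq.1; linarith [hh_pos]

theorem dd_MM {z : ℂ} (hz : z ∈ MM) : dd z = hh := by
  have h0 := MM_subset_Om hz
  obtain ⟨h1, h2⟩ := hz
  rcases lt_or_ge 0 z.im with h | h
  · rw [dd_pos_im h0 h, h1, sub_self, abs_zero, sub_zero]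
  · rw [dd_neg_im h0 h, h1, sub_self, abs_zero, sub_zero]
    rcases h2 with h' | h'
    · linarith
    · rw [min_eq_left]; linarith

theorem isLocalMax_of_MM {z : ℂ} (hz : z ∈ MM) : IsLocalMax dd z := by
  refine Eventually.of_forall fun w => ?_
  rw [dd_MM hz]; exact dd_le_hh w

/-- moving along the normal towards the middle curve -/
theorem exists_better {z : ℂ} (hz : z ∈ Om) (hne : del z ≠ c0) (h : 0 < z.im ∨ 1 + hh ≤ |z.re|)
    {r : ℝ} (hr : 0 < r) : ∃ w, dist w z < r ∧ dd z < dd w := by
  have h0 : 0 < del z := ρ_pos.trans hz.1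
  set ε : ℝ := min (1 / 2) (r / 4) with hε
  have hε0 : 0 < ε := lt_min (by norm_num) (by linarith)
  have hε1 : ε ≤ 1 / 2 := min_le_left _ _
  have hε2 : ε ≤ r / 4 := min_le_right _ _
  set τ : ℝ := ((1 - ε) * del z + ε * c0) / del z with hτ
  have hc := c0_gt
  have hτd : τ * del z = (1 - ε) * del z + ε * c0 := by rw [hτ, div_mul_cancel₀ _ h0.ne']
  have hnum : 0 < (1 - ε) * del z + ε * c0 := by
    have := mul_pos (by linarith : 0 < 1 - ε) h0
    have := mul_pos hε0 (by linarith : 0 < c0)
    linarith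
  have hτ0 : 0 < τ := div_pos hnum h0
  have hdw : del (nrm τ z) = (1 - ε) * del z + ε * c0 := by rw [del_nrm hτ0.le, hτd]
  have h2 := hz.1
  have h3 := hz.2.1
  have hw : nrm τ z ∈ Om := by
    refine ⟨?_, ?_, ?_⟩
    · rw [hdw]; nlinarith [c0_hh1, hh_pos]
    · rw [hdw]; nlinarith [c0_lt]
    · rw [show nrm τ z ∉ QQ ↔ z ∉ QQ from ?_]
      · exact hz.2.2
      · have : nrm τ z ∈ QQ ↔ z ∈ QQ := by
          constructor
          · rintro ⟨h1, h2⟩
            have h3 : |(nrm τ z).re| ≤ 10 := h1.trans (by norm_num)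
            have h4 := pr_of_abs_le h3
            rw [pr_nrm hτ0.le] at h4
            have h5 : |pr z| ≤ 1 := by rw [h4]; exact h1
            have h6 : τ * (z.re - pr z) = 0 := by
              have := nrm_re τ z
              rw [← h4] at this; linarith
            have h7 : z.re = pr z := by
              rcases mul_eq_zero.1 h6 with h | h
              · exact absurd h hτ0.ne'
              · linarith
            refine ⟨by rw [h7]; exact h5, ?_⟩
            rw [nrm_im] at h2
            by_contra hc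
            push Not at hc
            have := mul_pos hτ0 hc
            linarith
          · rintro ⟨h1, h2⟩
            have h3 : |z.re| ≤ 10 := h1.trans (by norm_num)
            refine ⟨?_, ?_⟩
            · rw [nrm_re, pr_of_abs_le h3]; simpa using h1
            · rw [nrm_im]; exact mul_nonpos_of_nonneg_of_nonpos hτ0.le h2
        rw [this]
  have hpos : 0 < |del z - c0| := abs_pos.2 (sub_ne_zero.2 hne)
  have habs : |del (nrm τ z) - c0| = (1 - ε) * |del z - c0| := by
    rw [hdw]
    have : (1 - ε) * del z + ε * c0 - c0 = (1 - ε) * (del z - c0) := by ring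
    rw [this, abs_mul, abs_of_pos (by linarith)]
  refine ⟨nrm τ z, ?_, ?_⟩
  · rw [dist_eq_norm, dist_nrm]
    have e : |τ - 1| * del z = |τ * del z - del z| := by
      rw [← abs_of_pos h0, ← abs_mul]
      congr 1
      rw [abs_of_pos h0]; ring
    rw [e, hτd]
    have : (1 - ε) * del z + ε * c0 - del z = ε * (c0 - del z) := by ring
    rw [this, abs_mul, abs_of_pos hε0]
    have h5 : |c0 - del z| < 2 := by
      rw [abs_lt]; constructor <;> linarith [c0_lt]
    nlinarith
  · rcases lt_or_ge 0 z.im with him | him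
    · have him' : 0 < (nrm τ z).im := by rw [nrm_im]; exact mul_pos hτ0 him
      rw [dd_pos_im hz him, dd_pos_im hw him', habs]
      nlinarith
    · have him' : (nrm τ z).im ≤ 0 := by
        rw [nrm_im]; exact mul_nonpos_of_nonneg_of_nonpos hτ0.le him
      have hre : 1 + hh ≤ |z.re| := by
        rcases h with h | h
        · linarith
        · exact h
      have hre' : 1 + hh ≤ |(nrm τ z).re| := by
        rcases le_or_gt |z.re| 10 with h10 | h10
        · rw [nrm_re, pr_of_abs_le h10]; simpa using hre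
        · have hh1 := hh_lt
          rcases lt_abs.1 h10 with h11 | h11
          · rw [nrm_re, pr_of_ge h11.le]
            refine le_trans ?_ (le_abs_self _)
            have := mul_pos hτ0 (by linarith : 0 < z.re - 10)
            linarith
          · rw [nrm_re, pr_of_le (by linarith)]
            refine le_trans ?_ (neg_le_abs _)
            have := mul_pos hτ0 (by linarith : 0 < -10 - z.re)
            linarith
      rw [dd_neg_im hz him, dd_neg_im hw him', habs]
      have e1 : hh - (1 - ε) * |del z - c0| ≤ |(nrm τ z).re| - 1 := by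
        have : 0 ≤ (1 - ε) * |del z - c0| := mul_nonneg (by linarith) (abs_nonneg _)
        linarith
      rw [min_eq_left e1]
      refine lt_of_le_of_lt (min_le_left _ _) ?_
      nlinarith

/-- moving away from the cut -/
theorem exists_better' {z : ℂ} (hz : z ∈ Om) (him : z.im ≤ 0) (hre : |z.re| < 1 + hh)
    {r : ℝ} (hr : 0 < r) : ∃ w, dist w z < r ∧ dd z < dd w := by
  have h0 : 0 < del z := ρ_pos.trans hz.1
  have h1 := one_lt_abs_re hz him
  have hh1 := hh_lt
  have h10 : |z.re| ≤ 10 := by linarith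
  have hdel : del z = -z.im := by rw [del_of_abs_le h10, abs_of_nonpos him]
  set ε : ℝ := min (1 / 2) (r / 4) with hε
  have hε0 : 0 < ε := lt_min (by norm_num) (by linarith)
  have hε1 : ε ≤ 1 / 2 := min_le_left _ _
  have hε2 : ε ≤ r / 4 := min_le_right _ _
  have h2 := hz.1
  have h3 := hz.2.1
  have hc := c0_gt
  let s : ℝ := z.re / |z.re|
  have hne : |z.re| ≠ 0 := by linarith
  have hs : |s| = 1 := by
    simp only [s, abs_div, abs_abs]; exact div_self hne
  have hzr : z.re = s * |z.re| := by simp only [s]; field_simp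
  obtain ⟨w, hwre, hwim⟩ : ∃ w : ℂ, w.re = s * (|z.re| + ε) ∧ w.im = (1 - ε) * z.im - ε * c0 :=
    ⟨⟨_, _⟩, rfl, rfl⟩
  have hwabs : |w.re| = |z.re| + ε := by
    rw [hwre, abs_mul, hs, one_mul, abs_of_pos (by linarith)]
  have hw10 : |w.re| ≤ 10 := by rw [hwabs]; linarith
  have hwim0 : w.im < 0 := by
    rw [hwim]
    have : (1 - ε) * z.im ≤ 0 := mul_nonpos_of_nonneg_of_nonpos (by linarith) him
    have := mul_pos hε0 (by linarith : 0 < c0)
    linarith
  have hdw : del w = (1 - ε) * del z + ε * c0 := by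
    rw [del_of_abs_le hw10, abs_of_neg hwim0, hwim, hdel]; ring
  have hw : w ∈ Om := by
    refine ⟨?_, ?_, fun hq => ?_⟩
    · rw [hdw]; nlinarith [c0_hh1, hh_pos]
    · rw [hdw]; nlinarith [c0_lt]
    · have := hq.1
      rw [hwabs] at this; linarith
  have habs : |del w - c0| = (1 - ε) * |del z - c0| := by
    rw [hdw]
    have : (1 - ε) * del z + ε * c0 - c0 = (1 - ε) * (del z - c0) := by ring
    rw [this, abs_mul, abs_of_pos (by linarith)]
  refine ⟨w, ?_, ?_⟩
  · rw [dist_eq_norm]
    refine lt_of_le_of_lt (Complex.norm_le_abs_re_add_abs_im _) ?_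
    rw [Complex.sub_re, Complex.sub_im]
    have e1 : w.re - z.re = s * ε := by rw [hwre]; conv_lhs => rw [hzr]
                                        simp only [abs_mul, hs, abs_abs]; ring
    have e2 : w.im - z.im = ε * (del z - c0) := by rw [hwim, hdel]; ring
    rw [e1, e2, abs_mul, abs_mul, hs, abs_of_pos hε0, one_mul]
    have h5 : |del z - c0| < 2 := by
      rw [abs_lt]; constructor <;> linarith [c0_lt]
    nlinarith
  · rw [dd_neg_im hz him, dd_neg_im hw hwim0.le, habs, hwabs]
    rw [lt_min_iff]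
    constructor
    · rcases eq_or_ne (del z) c0 with h | h
      · refine lt_of_le_of_lt (min_le_right _ _) ?_
        rw [h, sub_self, abs_zero]; linarith
      · have hpos : 0 < |del z - c0| := abs_pos.2 (sub_ne_zero.2 h)
        refine lt_of_le_of_lt (min_le_left _ _) ?_
        nlinarith
    · exact lt_of_le_of_lt (min_le_right _ _) (by linarith)

theorem localMax_eq : {z : ℂ | z ∈ Om ∧ IsLocalMax (fun w : ℂ => Metric.infDist w Omᶜ) z} = MM := by
  ext z
  constructor
  · rintro ⟨hz, hmax⟩
    obtain ⟨r, hr, hball⟩ := Metric.eventually_nhds_iff.1 hmax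
    have hno : ¬ ∃ w, dist w z < r ∧ dd z < dd w := by
      rintro ⟨w, hw1, hw2⟩
      exact absurd (hball hw1) (not_le.2 hw2)
    by_cases h : 0 < z.im ∨ 1 + hh ≤ |z.re|
    · refine ⟨?_, h⟩
      by_contra hne
      exact hno (exists_better hz hne h hr)
    · push Not at h
      exact absurd (exists_better' hz h.1 h.2 hr) hno
  · intro hz
    exact ⟨MM_subset_Om hz, isLocalMax_of_MM hz⟩

end Pool.Agent.H230R3.TC
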