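import Pool.Agent.H230R3.TC.Geom
import Pool.Agent.Helper562.VK

set_option autoImplicit false
set_option linter.unusedSectionVars false
set_option linter.unusedVariables false
open Set Metric Filter Topology

namespace Pool.Agent.H230R3.TC

theorem sc_union {X : Type*} [TopologicalSpace X] {A B : Set X} (hA : IsOpen A) (hB : IsOpen B)
    (sA : SimplyConnectedSpace A) (sB : SimplyConnectedSpace B) (hI : IsPathConnected (A ∩ B)) :
    SimplyConnectedSpace ↥(A ∪ B) := by
  let U : Set ↥(A ∪ B) := Subtype.val ⁻¹' A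
  let W : Set ↥(A ∪ B) := Subtype.val ⁻¹' B
  let eA : U ≃ₜ A :=
    { toFun := fun x => ⟨x.1.1, x.2⟩
      invFun := fun a => ⟨⟨a.1, Or.inl a.2⟩, a.2⟩
      left_inv := fun x => rfl
      right_inv := fun a => rfl
      continuous_toFun := by fun_prop
      continuous_invFun := by fun_prop }
  let eB : W ≃ₜ B :=
    { toFun := fun x => ⟨x.1.1, x.2⟩
      invFun := fun a => ⟨⟨a.1, Or.inr a.2⟩, a.2⟩
      left_inv := fun x => rfl
      right_inv := fun a => rfl
      continuous_toFun := by fun_prop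
      continuous_invFun := by fun_prop }
  have sU : SimplyConnectedSpace U := eA.toHomotopyEquiv.simplyConnectedSpace
  have sW : SimplyConnectedSpace W := eB.toHomotopyEquiv.simplyConnectedSpace
  refine Pool.Agent.Helper562.VK.simplyConnected_of_union (hA.preimage continuous_subtype_val)
    (hB.preimage continuous_subtype_val) ?_ sU sW ?_
  · ext x
    simp only [mem_union, mem_preimage, mem_univ, iff_true]
    exact x.2
  · rw [Topology.IsInducing.subtypeVal.isPathConnected_iff]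
    have : Subtype.val '' ((Subtype.val ⁻¹' A : Set ↥(A ∪ B)) ∩ Subtype.val ⁻¹' B) = A ∩ B := by
      ext x
      constructor
      · rintro ⟨y, ⟨h1, h2⟩, rfl⟩; exact ⟨h1, h2⟩
      · rintro ⟨h1, h2⟩; exact ⟨⟨x, Or.inl h1⟩, ⟨h1, h2⟩, rfl⟩
    rw [this]
    exact hI

theorem sc_convex {A : Set ℂ} (hA : Convex ℝ A) (hne : A.Nonempty) : SimplyConnectedSpace A := by
  have := hA.contractibleSpace hne
  infer_instance

/-- `{del < c}` is convex -/
theorem convex_del (c : ℝ) : Convex ℝ {z : ℂ | del z < c} := by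
  intro z hz w hw s t hs ht hst
  rw [mem_ofPred_eq] at *
  have hmem : s * pr z + t * pr w ∈ Icc (-10 : ℝ) 10 := by
    have h1 := pr_mem z
    have h2 := pr_mem w
    constructor
    · nlinarith [h1.1, h2.1]
    · nlinarith [h1.2, h2.2]
  refine lt_of_le_of_lt (del_le hmem) ?_
  have e : s • z + t • w - ((s * pr z + t * pr w : ℝ) : ℂ) =
      (s : ℂ) * (z - (pr z : ℂ)) + (t : ℂ) * (w - (pr w : ℂ)) := by
    rw [Complex.real_smul, Complex.real_smul]; push_cast; ring
  rw [e]
  have h3 := norm_add_le ((s : ℂ) * (z - (pr z : ℂ))) ((t : ℂ) * (w - (pr w : ℂ)))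
  rw [norm_mul, norm_mul, Complex.norm_real, Complex.norm_real, Real.norm_eq_abs, Real.norm_eq_abs,
    abs_of_nonneg hs, abs_of_nonneg ht] at h3
  have hz' : ‖z - (pr z : ℂ)‖ < c := hz
  have hw' : ‖w - (pr w : ℂ)‖ < c := hw
  have : s * ‖z - (pr z : ℂ)‖ + t * ‖w - (pr w : ℂ)‖ < c := by
    rcases eq_or_lt_of_le hs with h | h
    · have ht1 : t = 1 := by linarith
      rw [← h, ht1]; linarith
    · have h5 := mul_lt_mul_of_pos_left hz' h
      have h6 := mul_le_mul_of_nonneg_left hw'.le ht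
      have h7 : s * c + t * c = c := by rw [← add_mul, hst, one_mul]
      linarith
  linarith

theorem isOpen_del (c : ℝ) : IsOpen {z : ℂ | del z < c} := isOpen_lt continuous_del continuous_const

/-- half-planes -/
theorem convex_re_gt (c : ℝ) : Convex ℝ {z : ℂ | c < z.re} := convex_halfSpace_re_gt c
theorem convex_re_lt (c : ℝ) : Convex ℝ {z : ℂ | z.re < c} := convex_halfSpace_re_lt c
theorem convex_im_gt (c : ℝ) : Convex ℝ {z : ℂ | c < z.im} := convex_halfSpace_im_gt c
theorem convex_im_lt (c : ℝ) : Convex ℝ {z : ℂ | z.im < c} := convex_halfSpace_im_lt c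

theorem isOpen_re_gt (c : ℝ) : IsOpen {z : ℂ | c < z.re} := isOpen_lt continuous_const (by fun_prop)
theorem isOpen_re_lt (c : ℝ) : IsOpen {z : ℂ | z.re < c} := isOpen_lt (by fun_prop) continuous_const
theorem isOpen_im_gt (c : ℝ) : IsOpen {z : ℂ | c < z.im} := isOpen_lt continuous_const (by fun_prop)
theorem isOpen_im_lt (c : ℝ) : IsOpen {z : ℂ | z.im < c} := isOpen_lt (by fun_prop) continuous_const

/-- the slit model of the domain -/
def Om0 (c : ℝ) : Set ℂ := {z | 0 < del z ∧ del z < c ∧ z ∉ QQ}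

theorem sc_Om0 {c : ℝ} (hc : 1 < c) : SimplyConnectedSpace (Om0 c) := by
  set T : Set ℂ := {z | 0 < z.im} ∩ {z | del z < c} with hT
  set R : Set ℂ := {z | 10 < z.re} ∩ {z | del z < c} with hR
  set B : Set ℂ := {z | z.im < 0} ∩ ({z | 1 < z.re} ∩ {z | del z < c}) with hB
  set L : Set ℂ := {z | z.re < -10} ∩ {z | del z < c} with hL
  set B' : Set ℂ := {z | z.im < 0} ∩ ({z | z.re < -1} ∩ {z | del z < c}) with hB'
  have oT : IsOpen T := (isOpen_im_gt 0).inter (isOpen_del c)
  have oR : IsOpen R := (isOpen_re_gt 10).inter (isOpen_del c)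
  have oB : IsOpen B := (isOpen_im_lt 0).inter ((isOpen_re_gt 1).inter (isOpen_del c))
  have oL : IsOpen L := (isOpen_re_lt (-10)).inter (isOpen_del c)
  have oB' : IsOpen B' := (isOpen_im_lt 0).inter ((isOpen_re_lt (-1)).inter (isOpen_del c))
  have cT : Convex ℝ T := (convex_im_gt 0).inter (convex_del c)
  have cR : Convex ℝ R := (convex_re_gt 10).inter (convex_del c)
  have cB : Convex ℝ B := (convex_im_lt 0).inter ((convex_re_gt 1).inter (convex_del c))
  have cL : Convex ℝ L := (convex_re_lt (-10)).inter (convex_del c)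
  have cB' : Convex ℝ B' := (convex_im_lt 0).inter ((convex_re_lt (-1)).inter (convex_del c))
  -- points
  have d1 : ∀ s t : ℝ, del ((10 + s : ℝ) + (t : ℝ) * Complex.I) ≤ |s| + |t| := by
    intro s t
    refine (del_le (t := 10) (by constructor <;> norm_num)).trans ?_
    have e : (((10 + s : ℝ) : ℂ) + (t : ℝ) * Complex.I - ((10 : ℝ) : ℂ)) = (s : ℂ) + (t : ℂ) * Complex.I := by
      push_cast; ring
    rw [e]
    refine (norm_add_le _ _).trans ?_
    simp
  have d2 : ∀ s t : ℝ, del ((-10 + s : ℝ) + (t : ℝ) * Complex.I) ≤ |s| + |t| := by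
    intro s t
    refine (del_le (t := -10) (by constructor <;> norm_num)).trans ?_
    have e : (((-10 + s : ℝ) : ℂ) + (t : ℝ) * Complex.I - ((-10 : ℝ) : ℂ)) = (s : ℂ) + (t : ℂ) * Complex.I := by
      push_cast; ring
    rw [e]
    refine (norm_add_le _ _).trans ?_
    simp
  have p1 : ((10 + 1 / 2 : ℝ) + ((1 / 2 : ℝ) : ℝ) * Complex.I) ∈ T ∩ R := by
    have h := d1 (1 / 2) (1 / 2)
    have h' : |(1 / 2 : ℝ)| + |(1 / 2 : ℝ)| = 1 := by norm_num
    rw [h'] at h
    refine ⟨⟨?_, ?_⟩, ⟨?_, ?_⟩⟩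
    · simp
    · exact lt_of_le_of_lt h hc
    · norm_num
    · exact lt_of_le_of_lt h hc
  have p2 : ((10 + 1 / 2 : ℝ) + ((-(1 / 2) : ℝ) : ℝ) * Complex.I) ∈ B ∩ R := by
    have h := d1 (1 / 2) (-(1 / 2))
    have h' : |(1 / 2 : ℝ)| + |(-(1 / 2) : ℝ)| = 1 := by norm_num
    rw [h'] at h
    refine ⟨⟨?_, ?_, ?_⟩, ⟨?_, ?_⟩⟩
    · simp
    · norm_num
    · exact lt_of_le_of_lt h hc
    · norm_num
    · exact lt_of_le_of_lt h hc
  have p3 : ((-10 + -(1 / 2) : ℝ) + ((1 / 2 : ℝ) : ℝ) * Complex.I) ∈ T ∩ L := by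
    have h := d2 (-(1 / 2)) (1 / 2)
    have h' : |(-(1 / 2) : ℝ)| + |(1 / 2 : ℝ)| = 1 := by norm_num
    rw [h'] at h
    refine ⟨⟨?_, ?_⟩, ⟨?_, ?_⟩⟩
    · simp
    · exact lt_of_le_of_lt h hc
    · norm_num
    · exact lt_of_le_of_lt h hc
  have p4 : ((-10 + -(1 / 2) : ℝ) + ((-(1 / 2) : ℝ) : ℝ) * Complex.I) ∈ B' ∩ L := by
    have h := d2 (-(1 / 2)) (-(1 / 2))
    have h' : |(-(1 / 2) : ℝ)| + |(-(1 / 2) : ℝ)| = 1 := by norm_num
    rw [h'] at h
    refine ⟨⟨?_, ?_, ?_⟩, ⟨?_, ?_⟩⟩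
    · simp
    · norm_num
    · exact lt_of_le_of_lt h hc
    · norm_num
    · exact lt_of_le_of_lt h hc
  have s1 : SimplyConnectedSpace ↥(T ∪ R) :=
    sc_union oT oR (sc_convex cT ⟨_, p1.1⟩) (sc_convex cR ⟨_, p1.2⟩)
      ((cT.inter cR).isPathConnected ⟨_, p1⟩)
  have i2 : (T ∪ R) ∩ B = B ∩ R := by
    ext z
    constructor
    · rintro ⟨h1 | h1, h2⟩
      · have h3 : 0 < z.im := h1.1
        have h4 : z.im < 0 := h2.1
        linarith
      · exact ⟨h2, h1⟩
    · rintro ⟨h1, h2⟩; exact ⟨Or.inr h2, h1⟩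
  have s2 : SimplyConnectedSpace ↥((T ∪ R) ∪ B) := by
    refine sc_union (oT.union oR) oB s1 (sc_convex cB ⟨_, p2.1⟩) ?_
    rw [i2]
    exact (cB.inter cR).isPathConnected ⟨_, p2⟩
  have i3 : ((T ∪ R) ∪ B) ∩ L = T ∩ L := by
    ext z
    constructor
    · rintro ⟨(h1 | h1) | h1, h2⟩
      · exact ⟨h1, h2⟩
      · have h3 : 10 < z.re := h1.1
        have h4 : z.re < -10 := h2.1
        linarith
      · have h3 : 1 < z.re := h1.2.1
        have h4 : z.re < -10 := h2.1
        linarith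
    · rintro ⟨h1, h2⟩; exact ⟨Or.inl (Or.inl h1), h2⟩
  have s3 : SimplyConnectedSpace ↥(((T ∪ R) ∪ B) ∪ L) := by
    refine sc_union ((oT.union oR).union oB) oL s2 (sc_convex cL ⟨_, p3.2⟩) ?_
    rw [i3]
    exact (cT.inter cL).isPathConnected ⟨_, p3⟩
  have i4 : (((T ∪ R) ∪ B) ∪ L) ∩ B' = B' ∩ L := by
    ext z
    constructor
    · rintro ⟨((h1 | h1) | h1) | h1, h2⟩
      · have h3 : 0 < z.im := h1.1
        have h4 : z.im < 0 := h2.1
        linarith
      · have h3 : 10 < z.re := h1.1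
        have h4 : z.re < -1 := h2.2.1
        linarith
      · have h3 : 1 < z.re := h1.2.1
        have h4 : z.re < -1 := h2.2.1
        linarith
      · exact ⟨h2, h1⟩
    · rintro ⟨h1, h2⟩; exact ⟨Or.inr h2, h1⟩
  have s4 : SimplyConnectedSpace ↥((((T ∪ R) ∪ B) ∪ L) ∪ B') := by
    refine sc_union (((oT.union oR).union oB).union oL) oB' s3 (sc_convex cB' ⟨_, p4.1⟩) ?_
    rw [i4]
    exact (cB'.inter cL).isPathConnected ⟨_, p4⟩
  have heq : Om0 c = (((T ∪ R) ∪ B) ∪ L) ∪ B' := by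
    ext z
    constructor
    · rintro ⟨h1, h2, h3⟩
      rcases lt_trichotomy z.im 0 with h | h | h
      · have h4 : 1 < |z.re| := by
          by_contra hc
          exact h3 ⟨not_lt.1 hc, h.le⟩
        rcases lt_abs.1 h4 with h5 | h5
        · exact Or.inl (Or.inl (Or.inr ⟨h, h5, h2⟩))
        · have h6 : z.re < -1 := by linarith
          exact Or.inr ⟨h, h6, h2⟩
      · have h4 : 10 < |z.re| := by
          by_contra hc
          rw [del_of_abs_le (not_lt.1 hc), h] at h1
          simp at h1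
        rcases lt_abs.1 h4 with h5 | h5
        · exact Or.inl (Or.inl (Or.inl (Or.inr ⟨h5, h2⟩)))
        · have h6 : z.re < -10 := by linarith
          exact Or.inl (Or.inr ⟨h6, h2⟩)
      · exact Or.inl (Or.inl (Or.inl (Or.inl ⟨h, h2⟩)))
    · have key : ∀ z : ℂ, z.im ≠ 0 ∨ 10 < |z.re| → 0 < del z := by
        intro z hz
        rcases hz with h | h
        · exact lt_of_lt_of_le (abs_pos.2 h) (abs_im_le_del z)
        · by_contra hcon
          have := abs_re_le_del z
          linarith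
      rintro ((((⟨h1, h2⟩ | ⟨h1, h2⟩) | ⟨h1, h3, h2⟩) | ⟨h1, h2⟩) | ⟨h1, h3, h2⟩)
      · have h1' : 0 < z.im := h1
        exact ⟨key z (Or.inl h1'.ne'), h2, fun hq => absurd hq.2 (not_le.2 h1')⟩
      · have h1' : 10 < z.re := h1
        exact ⟨key z (Or.inr (lt_of_lt_of_le h1' (le_abs_self _))), h2, fun hq => by
          have := (abs_le.1 hq.1).2
          linarith⟩
      · have h1' : z.im < 0 := h1
        have h3' : 1 < z.re := h3
        exact ⟨key z (Or.inl h1'.ne), h2, fun hq => by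
          have := (abs_le.1 hq.1).2
          linarith⟩
      · have h1' : z.re < -10 := h1
        exact ⟨key z (Or.inr (lt_of_lt_of_le (by linarith : (10 : ℝ) < -z.re) (neg_le_abs _))), h2,
          fun hq => by
          have := (abs_le.1 hq.1).1
          linarith⟩
      · have h1' : z.im < 0 := h1
        have h3' : z.re < -1 := h3
        exact ⟨key z (Or.inl h1'.ne), h2, fun hq => by
          have := (abs_le.1 hq.1).1
          linarith⟩
  rw [heq]
  exact s4

theorem nrm_mem_QQ {τ : ℝ} (hτ : 0 < τ) (z : ℂ) : nrm τ z ∈ QQ ↔ z ∈ QQ := by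
  constructor
  · rintro ⟨h1, h2⟩
    have h3 : |(nrm τ z).re| ≤ 10 := h1.trans (by norm_num)
    have h4 := pr_of_abs_le h3
    rw [pr_nrm hτ.le] at h4
    have h5 : |pr z| ≤ 1 := by rw [h4]; exact h1
    have h6 : τ * (z.re - pr z) = 0 := by
      have := nrm_re τ z
      rw [← h4] at this; linarith
    have h7 : z.re = pr z := by
      rcases mul_eq_zero.1 h6 with h | h
      · exact absurd h hτ.ne'
      · linarith
    refine ⟨by rw [h7]; exact h5, ?_⟩
    rw [nrm_im] at h2
    by_contra hc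
    push Not at hc
    have := mul_pos hτ hc
    linarith
  · rintro ⟨h1, h2⟩
    have h3 : |z.re| ≤ 10 := h1.trans (by norm_num)
    refine ⟨?_, ?_⟩
    · rw [nrm_re, pr_of_abs_le h3]; simpa using h1
    · rw [nrm_im]; exact mul_nonpos_of_nonneg_of_nonpos hτ.le h2

theorem nrm_nrm {σ τ : ℝ} (hτ : 0 ≤ τ) (z : ℂ) : nrm σ (nrm τ z) = nrm (σ * τ) z := by
  unfold nrm
  have h := pr_nrm hτ z
  unfold nrm at h
  rw [h]; push_cast; ring

theorem nrm_one (z : ℂ) : nrm 1 z = z := by unfold nrm; push_cast; ring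

theorem continuousOn_nrm {f : ℂ → ℝ} {S : Set ℂ} (hf : ContinuousOn f S) :
    ContinuousOn (fun z => nrm (f z) z) S := by
  unfold nrm
  have h1 : Continuous fun z : ℂ => (pr z : ℂ) := Complex.continuous_ofReal.comp continuous_pr
  have h2 : ContinuousOn (fun z => (f z : ℂ)) S := Complex.continuous_ofReal.comp_continuousOn hf
  exact h1.continuousOn.add (h2.mul (continuous_id.sub h1).continuousOn)

/-- `Om` is homeomorphic to the slit model -/
noncomputable def eOm : Om ≃ₜ Om0 (2 - ρ) where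
  toFun z := ⟨nrm ((del z - ρ) / del z) z, by
    obtain ⟨h1, h2, h3⟩ := z.2
    have h0 : 0 < del (z : ℂ) := ρ_pos.trans h1
    have hτ : 0 < (del (z : ℂ) - ρ) / del z := div_pos (by linarith) h0
    have hd : del (nrm ((del (z : ℂ) - ρ) / del z) z) = del (z : ℂ) - ρ := by
      rw [del_nrm hτ.le, div_mul_cancel₀ _ h0.ne']
    refine ⟨by rw [hd]; linarith, by rw [hd]; linarith, ?_⟩
    rw [nrm_mem_QQ hτ]; exact h3⟩
  invFun z := ⟨nrm ((del z + ρ) / del z) z, by
    obtain ⟨h1, h2, h3⟩ := z.2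
    have hτ : 0 < (del (z : ℂ) + ρ) / del z := div_pos (by linarith [ρ_pos]) h1
    have hd : del (nrm ((del (z : ℂ) + ρ) / del z) z) = del (z : ℂ) + ρ := by
      rw [del_nrm hτ.le, div_mul_cancel₀ _ h1.ne']
    refine ⟨by rw [hd]; linarith, by rw [hd]; linarith, ?_⟩
    rw [nrm_mem_QQ hτ]; exact h3⟩
  left_inv z := by
    obtain ⟨h1, h2, h3⟩ := z.2
    have h0 : 0 < del (z : ℂ) := ρ_pos.trans h1
    have hτ : 0 < (del (z : ℂ) - ρ) / del z := div_pos (by linarith) h0
    have hd : del (nrm ((del (z : ℂ) - ρ) / del z) z) = del (z : ℂ) - ρ := by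
      rw [del_nrm hτ.le, div_mul_cancel₀ _ h0.ne']
    ext1
    show nrm ((del (nrm ((del (z : ℂ) - ρ) / del z) z) + ρ) /
      del (nrm ((del (z : ℂ) - ρ) / del z) z)) (nrm ((del (z : ℂ) - ρ) / del z) z) = z
    rw [hd, nrm_nrm hτ.le]
    have h4 : del (z : ℂ) - ρ ≠ 0 := by linarith
    have : (del (z : ℂ) - ρ + ρ) / (del (z : ℂ) - ρ) * ((del (z : ℂ) - ρ) / del (z : ℂ)) = 1 := by
      field_simp; ring
    rw [this, nrm_one]
  right_inv z := by
    obtain ⟨h1, h2, h3⟩ := z.2
    have hτ : 0 < (del (z : ℂ) + ρ) / del z := div_pos (by linarith [ρ_pos]) h1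
    have hd : del (nrm ((del (z : ℂ) + ρ) / del z) z) = del (z : ℂ) + ρ := by
      rw [del_nrm hτ.le, div_mul_cancel₀ _ h1.ne']
    ext1
    show nrm ((del (nrm ((del (z : ℂ) + ρ) / del z) z) - ρ) /
      del (nrm ((del (z : ℂ) + ρ) / del z) z)) (nrm ((del (z : ℂ) + ρ) / del z) z) = z
    rw [hd, nrm_nrm hτ.le]
    have h4 : del (z : ℂ) + ρ ≠ 0 := by linarith [ρ_pos]
    have : (del (z : ℂ) + ρ - ρ) / (del (z : ℂ) + ρ) * ((del (z : ℂ) + ρ) / del (z : ℂ)) = 1 := by
      field_simp; ring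
    rw [this, nrm_one]
  continuous_toFun := by
    refine Continuous.subtype_mk ?_ _
    have : ContinuousOn (fun z : ℂ => nrm ((del z - ρ) / del z) z) Om := by
      refine continuousOn_nrm ?_
      refine (continuous_del.sub continuous_const).continuousOn.div continuous_del.continuousOn ?_
      intro z hz
      exact (ρ_pos.trans hz.1).ne'
    exact continuousOn_iff_continuous_domRestrict.1 this
  continuous_invFun := by
    refine Continuous.subtype_mk ?_ _
    have : ContinuousOn (fun z : ℂ => nrm ((del z + ρ) / del z) z) (Om0 (2 - ρ)) := by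
      refine continuousOn_nrm ?_
      refine (continuous_del.add continuous_const).continuousOn.div continuous_del.continuousOn ?_
      intro z hz
      exact hz.1.ne'
    exact continuousOn_iff_continuous_domRestrict.1 this

theorem sc_Om : SimplyConnectedSpace Om := by
  have h1 : SimplyConnectedSpace (Om0 (2 - ρ)) := sc_Om0 (by linarith [ρ_lt])
  exact eOm.toHomotopyEquiv.simplyConnectedSpace

theorem isConnected_Om : IsConnected Om := by
  have := sc_Om
  exact isConnected_iff_connectedSpace.2 inferInstance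

end Pool.Agent.H230R3.TC
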